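import Mathlib

/-!
# Dihedral factorisation of twisted Alexander polynomials of two-bridge knots

For every two-bridge knot `K = S(a, b)`, every odd prime `p` and every epimorphism `δ` of the knot
group onto the dihedral group `D_p`, Wada's twisted Alexander polynomial `T_δ(t)` of `K` for the
permutation representation of `D_p` on `ℤ/p` satisfies `(1 - t) T_δ(t) = ± t^k Δ_K(t) f(t) f(-t)`
for some `f ∈ ℤ[t, t⁻¹]`.

## Idea of the proof (carried out in `Pool.Agent.H71.TwoBridge.Proof`)
Schubert's relator `r` and the exchange `σ` of the two generators `x, y` satisfy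
`σ(r) = g⁻¹ r⁻¹ g` and `σ(g) = g⁻¹` for an explicit `g` (the cyclic period two of the knot).
Let `X, Y` be the images of `x, y` under `t^φ ϱ(δ)`, let `S` be the reflection of `D_p` which
conjugates `X` to `Y`, and `Q = Φ(∂r/∂x) (X - 1)`. The symmetry gives `H Q S = Q` for a reflection
`H`, so `Q` splits into blocks along the `±1`-eigenspaces. The matrix `J = ϱ(y) - ϱ(y)⁻¹` satisfies
`Q(t) J = J Q(-t)` and interchanges the eigenspaces modulo the all-one vector, so the block
determinants are, up to the factor coming from the all-one vector, `q(t)` and `q(-t)`.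
Modulo `t² - 1` all columns of `Q` agree, so the block is divisible by `t² - 1`.
-/


namespace Pool.Agent.H71.TwoBridge

open LaurentPolynomial

/-! ## Definitions used in the statement -/

section Definitions

/-- The sign `ε_i = (-1)^⌊i b / a⌋`. -/
def eps (a : ℕ) (b : ℤ) (i : ℕ) : ℤ := if Even ((i * b) / (a : ℤ)) then 1 else -1

/-- Schubert's word `w = x^{ε_1} y^{ε_2} x^{ε_3} ⋯ x^{ε_{a-2}} y^{ε_{a-1}}` in the free group on
`x = FreeGroup.of 0` and `y = FreeGroup.of 1`. -/
def schubertWord (a : ℕ) (b : ℤ) : FreeGroup (Fin 2) :=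
  ((List.range (a - 1)).map fun i =>
    FreeGroup.of (if Even i then (0 : Fin 2) else 1) ^ eps a b (i + 1)).prod

/-- The relator `w x w⁻¹ y⁻¹`. -/
def schubertRel (a : ℕ) (b : ℤ) : FreeGroup (Fin 2) :=
  schubertWord a b * FreeGroup.of 0 * (schubertWord a b)⁻¹ * (FreeGroup.of 1)⁻¹

/-- The group `⟨x, y | w x = y w⟩` of the two-bridge knot `S(a, b)`. -/
abbrev TwoBridgeGroup (a : ℕ) (b : ℤ) : Type := PresentedGroup {schubertRel a b}

/-- The Fox derivative `∂/∂g_j` of a word; the word is a list of letters, where `(i, true)` stands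
for `g_i` and `(i, false)` for `g_i⁻¹`. It is determined by `∂(g_i w) = δ_ij + g_i ∂w` and
`∂(g_i⁻¹ w) = g_i⁻¹ (∂w - δ_ij)`. -/
noncomputable def foxWord {X : Type*} [DecidableEq X] (j : X) :
    List (X × Bool) → MonoidAlgebra ℤ (FreeGroup X)
  | [] => 0
  | (i, true) :: w =>
      (if i = j then 1 else 0) + MonoidAlgebra.of ℤ (FreeGroup X) (FreeGroup.of i) * foxWord j w
  | (i, false) :: w =>
      MonoidAlgebra.of ℤ (FreeGroup X) (FreeGroup.of i)⁻¹ * (foxWord j w - (if i = j then 1 else 0))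

/-- The Fox derivative `∂w/∂g_j` of an element of a free group, computed from its reduced word. -/
noncomputable def fox {X : Type*} [DecidableEq X] (j : X) (w : FreeGroup X) :
    MonoidAlgebra ℤ (FreeGroup X) :=
  foxWord j w.toWord

/-- The action of `D_p` on `ℤ/p`: `y = r 1` acts by `n ↦ n - 1` and `x = sr 0` acts by `n ↦ -n`
(so `r i = y^i` acts by `n ↦ n - i` and `sr i = x y^i` by `n ↦ i - n`). -/
def dihAct {p : ℕ} : DihedralGroup p → ZMod p → ZMod p
  | .r i, n => n - i
  | .sr i, n => i - n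

/-- The homomorphism `g ↦ t^{φ(g)}`. -/
noncomputable def tHom {G : Type*} [Group G] (φ : G →* Multiplicative ℤ) : G →* ℤ[T;T⁻¹] where
  toFun g := T (φ g).toAdd
  map_one' := by simp
  map_mul' g h := by rw [map_mul, toAdd_mul, T_add]

theorem dihAct_mul {p : ℕ} (g h : DihedralGroup p) (n : ZMod p) :
    dihAct (g * h) n = dihAct g (dihAct h n) := by
  rcases g with i | i <;> rcases h with j | j <;> simp only [dihAct, DihedralGroup.r_mul_r,
    DihedralGroup.r_mul_sr, DihedralGroup.sr_mul_r, DihedralGroup.sr_mul_sr] <;> ring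

/-- The representation `Φ(g) = t^{φ(g)} ϱ(δ(g))`, where `ϱ` is the representation of `D_p` by the
permutation matrices of its action on `ℤ/p`. -/
noncomputable def twistedRep {G : Type*} [Group G] {p : ℕ} [NeZero p]
    (φ : G →* Multiplicative ℤ) (δ : G →* DihedralGroup p) :
    G →* Matrix (ZMod p) (ZMod p) ℤ[T;T⁻¹] where
  toFun g := Matrix.of fun i j => if i = dihAct (δ g) j then T (φ g).toAdd else 0
  map_one' := by
    ext i j
    rw [map_one, map_one, DihedralGroup.one_def]
    simp [dihAct, Matrix.one_apply]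
  map_mul' g h := by
    refine Matrix.ext fun i j => ?_
    rw [Matrix.mul_apply, map_mul, map_mul, toAdd_mul, T_add]
    simp only [Matrix.of_apply, dihAct_mul, mul_ite, ite_mul, zero_mul, mul_zero,
      Finset.sum_ite_eq', Finset.mem_univ, if_true]

/-- The substitution `t ↦ -t` of `ℤ[t, t⁻¹]`. -/
noncomputable def negT : ℤ[T;T⁻¹] →+* ℤ[T;T⁻¹] :=
  eval₂ C (-(isUnit_T (R := ℤ) 1).unit)

variable {m p : ℕ} [NeZero p] (rels : Fin m → FreeGroup (Fin (m + 1)))

/-- The Alexander ideal of `(⟨g_0, …, g_m | r_1, …, r_m⟩, φ)`: the ideal of `ℤ[t, t⁻¹]` generated by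
the `m × m` minors of the Alexander matrix `(t^φ(∂r_i/∂g_j))`. -/
noncomputable def alexanderIdeal (φ : PresentedGroup (Set.range rels) →* Multiplicative ℤ) :
    Ideal ℤ[T;T⁻¹] :=
  Ideal.span (Set.range fun j₀ : Fin (m + 1) =>
    (Matrix.of fun i j : Fin m =>
      MonoidAlgebra.lift ℤ ℤ[T;T⁻¹] (FreeGroup (Fin (m + 1)))
        ((tHom φ).comp (PresentedGroup.mk (Set.range rels))) (fox (j₀.succAbove j) (rels i))).det)

/-- The numerator `det (Φ(∂r_i/∂g_j))_{i, j ≠ j₀}` of Wada's polynomial. -/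
noncomputable def wadaNum
    (Φ : PresentedGroup (Set.range rels) →* Matrix (ZMod p) (ZMod p) ℤ[T;T⁻¹])
    (j₀ : Fin (m + 1)) : ℤ[T;T⁻¹] :=
  (Matrix.of fun x y : Fin m × ZMod p =>
    (MonoidAlgebra.lift ℤ (Matrix (ZMod p) (ZMod p) ℤ[T;T⁻¹]) (FreeGroup (Fin (m + 1)))
      (Φ.comp (PresentedGroup.mk (Set.range rels))) (fox (j₀.succAbove y.1) (rels x.1)))
        x.2 y.2).det

/-- The denominator `det Φ(g_{j₀} - 1)` of Wada's polynomial. -/
noncomputable def wadaDen
    (Φ : PresentedGroup (Set.range rels) →* Matrix (ZMod p) (ZMod p) ℤ[T;T⁻¹])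
    (j₀ : Fin (m + 1)) : ℤ[T;T⁻¹] :=
  (Φ (PresentedGroup.of j₀) - 1).det

/-- Wada's twisted Alexander polynomial, in the fraction field of `ℤ[t, t⁻¹]`. -/
noncomputable def wada
    (Φ : PresentedGroup (Set.range rels) →* Matrix (ZMod p) (ZMod p) ℤ[T;T⁻¹])
    (j₀ : Fin (m + 1)) : FractionRing ℤ[T;T⁻¹] :=
  algebraMap ℤ[T;T⁻¹] (FractionRing ℤ[T;T⁻¹]) (wadaNum rels Φ j₀) /
    algebraMap ℤ[T;T⁻¹] (FractionRing ℤ[T;T⁻¹]) (wadaDen rels Φ j₀)

end Definitions


end Pool.Agent.H71.TwoBridge
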