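import Mathlib
import Pool.Agent.H71.TwoBridge.Defs

set_option linter.unusedSectionVars false

namespace Pool.Agent.H71.TwoBridge

open LaurentPolynomial

/-! ## Linear algebra over `ℤ/p` -/

section LinAlg

open Matrix


/-- If `N P = P B` with `P` injective, then `det N = det B`. -/
lemma det_eq_of_intertwine {n m : Type*} [Fintype n] [DecidableEq n] [Fintype m] [DecidableEq m]
    {R : Type*} [CommRing R] [IsDomain R] (e : m ≃ n) (N : Matrix n n R) (B : Matrix m m R)
    (P : Matrix n m R) (h : N * P = P * B) (hP : ∀ v, P.mulVec v = 0 → v = 0) :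
    N.det = B.det := by
  have h1 : N * (P.submatrix id e.symm) = (P.submatrix id e.symm) * (B.submatrix e.symm e.symm) := by
    have h2 : N * (P.submatrix id e.symm) = (N * P).submatrix id e.symm := by
      ext i j
      simp [Matrix.mul_apply]
    have h3 : (P.submatrix id e.symm) * (B.submatrix e.symm e.symm) =
        (P * B).submatrix id e.symm := by
      rw [Matrix.submatrix_mul_equiv]
    rw [h2, h3, h]
  have hdet : (P.submatrix id e.symm).det ≠ 0 := by
    intro h0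
    obtain ⟨v, hv, hv0⟩ := Matrix.exists_mulVec_eq_zero_iff.mpr h0
    apply hv
    have h4 : P.mulVec (v ∘ e) = 0 := by
      rw [← hv0]
      ext i
      simp only [Matrix.mulVec, dotProduct, Matrix.submatrix_apply, id]
      rw [← Equiv.sum_comp e]
      simp
    have h5 := hP _ h4
    ext i
    have := congrFun h5 (e.symm i)
    simpa using this
  have h6 := congrArg Matrix.det h1
  rw [Matrix.det_mul, Matrix.det_mul, Matrix.det_submatrix_equiv_self, mul_comm] at h6
  exact mul_left_cancel₀ hdet h6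

section Half

variable {p l : ℕ} (hpl : p = 2 * l + 1)

/-- representatives `1, …, l` of the nonzero classes mod `p = 2l+1` up to sign -/
def half (p l : ℕ) (k : Fin l) : ZMod p := ((k.val + 1 : ℕ) : ZMod p)

include hpl

lemma half_injective : Function.Injective (half p l) := by
  intro a b hab
  unfold half at hab
  rw [ZMod.natCast_eq_natCast_iff'] at hab
  have ha := a.isLt
  have hb := b.isLt
  rw [Nat.mod_eq_of_lt (by omega), Nat.mod_eq_of_lt (by omega)] at hab
  ext; omega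

lemma half_ne_neg (a b : Fin l) : half p l a ≠ - half p l b := by
  intro hab
  have h1 : ((a.val + 1 + (b.val + 1) : ℕ) : ZMod p) = 0 := by
    unfold half at hab
    push_cast at hab ⊢
    rw [hab]; ring
  rw [ZMod.natCast_eq_zero_iff] at h1
  have ha := a.isLt
  have hb := b.isLt
  have := Nat.le_of_dvd (by omega) h1
  omega

lemma half_ne_zero (a : Fin l) : half p l a ≠ 0 := by
  intro h
  unfold half at h
  rw [ZMod.natCast_eq_zero_iff] at h
  have ha := a.isLt
  have := Nat.le_of_dvd (by omega) h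
  omega

lemma half_cases (i : ZMod p) : i = 0 ∨ (∃ k, i = half p l k) ∨ (∃ k, i = - half p l k) := by
  have : NeZero p := ⟨by omega⟩
  by_cases h0 : i.val = 0
  · left
    exact (ZMod.val_eq_zero i).mp h0
  · right
    have hi := ZMod.val_lt i
    by_cases h1 : i.val ≤ l
    · left
      refine ⟨⟨i.val - 1, by omega⟩, ?_⟩
      unfold half
      simp only
      rw [Nat.sub_add_cancel (by omega), ZMod.natCast_zmod_val]
    · right
      refine ⟨⟨p - i.val - 1, by omega⟩, ?_⟩
      unfold half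
      simp only
      rw [Nat.sub_add_cancel (by omega), Nat.cast_sub (by omega)]
      simp

end Half

section Core

variable {p l : ℕ} (hpl : p = 2 * l + 1) {R : Type*} [CommRing R]

/-- antisymmetric basis matrix -/
def P1 (p l : ℕ) (R : Type*) [CommRing R] : Matrix (ZMod p) (Fin l) R :=
  Matrix.of fun i k => (if i = half p l k then 1 else 0) - (if i = - half p l k then 1 else 0)

/-- the matrix of `y - y⁻¹` -/
def JJ (p : ℕ) (R : Type*) [CommRing R] : Matrix (ZMod p) (ZMod p) R :=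
  Matrix.of fun i j => (if i = j + 1 then 1 else 0) - (if i = j - 1 then 1 else 0)

include hpl in
/-- every antisymmetric vector is a combination of the antisymmetric basis -/
lemma antisymm_expand (h2 : ∀ x : R, x + x = 0 → x = 0) (a : ZMod p → R)
    (ha : ∀ i, a (-i) = - a i) :
    (P1 p l R).mulVec (fun k => a (half p l k)) = a := by
  ext i
  simp only [P1, Matrix.mulVec, dotProduct, Matrix.of_apply]
  rcases half_cases hpl i with h | ⟨k, h⟩ | ⟨k, h⟩
  · subst h
    have h0 : a 0 = 0 := h2 _ (by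
      have := ha 0
      rw [neg_zero] at this
      nth_rewrite 1 [this]
      ring)
    rw [h0]
    apply Finset.sum_eq_zero
    intro k _
    have h1 := half_ne_zero hpl k
    rw [if_neg h1.symm, if_neg (fun h => h1 (by rw [← neg_neg (half p l k), ← h, neg_zero]))]
    ring
  · subst h
    rw [Finset.sum_eq_single k]
    · rw [if_pos rfl, if_neg (half_ne_neg hpl k k)]
      ring
    · intro b _ hb
      rw [if_neg (fun h => hb (half_injective hpl h).symm), if_neg (half_ne_neg hpl k b)]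
      ring
    · intro h; exact absurd (Finset.mem_univ _) h
  · subst h
    rw [Finset.sum_eq_single k]
    · rw [if_neg (fun h => half_ne_neg hpl k k h.symm), if_pos rfl, ha]
      ring
    · intro b _ hb
      rw [if_neg (fun h => half_ne_neg hpl b k h.symm),
        if_neg (fun h => hb (half_injective hpl (neg_injective h)).symm)]
      ring
    · intro h; exact absurd (Finset.mem_univ _) h

lemma P1_mulVec_neg (v : Fin l → R) (i : ZMod p) :
    (P1 p l R).mulVec v (-i) = - (P1 p l R).mulVec v i := by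
  simp only [P1, Matrix.mulVec, dotProduct, Matrix.of_apply, ← Finset.sum_neg_distrib]
  apply Finset.sum_congr rfl
  intro k _
  have h1 : (-i = half p l k) ↔ (i = - half p l k) := by
    constructor
    · intro h; rw [← h, neg_neg]
    · intro h; rw [h, neg_neg]
  have h2 : (-i = - half p l k) ↔ (i = half p l k) := neg_inj
  simp only [h1, h2]
  ring

include hpl in
lemma P1_mulVec_half (v : Fin l → R) (k : Fin l) :
    (P1 p l R).mulVec v (half p l k) = v k := by
  simp only [P1, Matrix.mulVec, dotProduct, Matrix.of_apply]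
  rw [Finset.sum_eq_single k]
  · rw [if_pos rfl, if_neg (half_ne_neg hpl k k)]
    ring
  · intro b _ hb
    rw [if_neg (fun h => hb (half_injective hpl h).symm), if_neg (half_ne_neg hpl k b)]
    ring
  · intro h; exact absurd (Finset.mem_univ _) h

lemma JJ_mulVec [NeZero p] (v : ZMod p → R) (i : ZMod p) :
    (JJ p R).mulVec v i = v (i - 1) - v (i + 1) := by
  simp only [JJ, Matrix.mulVec, dotProduct, Matrix.of_apply, sub_mul, ite_mul, one_mul, zero_mul,
    Finset.sum_sub_distrib]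
  congr 1
  · rw [Finset.sum_eq_single (i - 1)]
    · simp
    · intro b _ hb
      rw [if_neg]
      intro h; apply hb; rw [h]; ring
    · intro h; exact absurd (Finset.mem_univ _) h
  · rw [Finset.sum_eq_single (i + 1)]
    · simp
    · intro b _ hb
      rw [if_neg]
      intro h; apply hb; rw [h]; ring
    · intro h; exact absurd (Finset.mem_univ _) h

end Core

section Main

variable {p l : ℕ} (hpl : p = 2 * l + 1) {R : Type*} [CommRing R] [IsDomain R]

omit [CommRing R] [IsDomain R] in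
include hpl in
lemma const_of_shift_two [Fact p.Prime] (w : ZMod p → R) (h : ∀ i, w (i - 1) = w (i + 1)) (i j : ZMod p) :
    w i = w j := by
  have h2 : ∀ (n : ℕ) (i : ZMod p), w (i + 2 * n) = w i := by
    intro n
    induction n with
    | zero => intro i; simp
    | succ n ih =>
      intro i
      have := h (i + 2 * n + 1)
      rw [add_sub_cancel_right, ih] at this
      rw [this]
      congr 1
      push_cast
      ring
  have h3 : (2 : ZMod p) ≠ 0 := by
    have h4 : ((2 : ℕ) : ZMod p) ≠ 0 := by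
      rw [Ne, ZMod.natCast_eq_zero_iff]
      intro hd
      have := Nat.le_of_dvd (by norm_num) hd
      have := (Fact.out : p.Prime).two_le
      omega
    exact_mod_cast h4
  have h5 := h2 ((j - i) / 2).val i
  rw [ZMod.natCast_zmod_val, mul_div_cancel₀ _ h3] at h5
  rw [← h5]
  congr 1
  ring

/-- the reduced matrix -/
def redM (p l : ℕ) {R : Type*} [CommRing R] (N : Matrix (ZMod p) (ZMod p) R) :
    Matrix (Fin l) (Fin l) R :=
  Matrix.of fun i j => N (half p l i) (half p l j) - N (half p l i) (- half p l j)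

include hpl in
omit [IsDomain R] in
lemma N_mul_P1 [NeZero p] (h2 : ∀ x : R, x + x = 0 → x = 0) (N : Matrix (ZMod p) (ZMod p) R)
    (h1 : ∀ i j, N (-i) (-j) = N i j) :
    N * P1 p l R = P1 p l R * redM p l N := by
  have key : ∀ i j, (N * P1 p l R) i j = N i (half p l j) - N i (- half p l j) := by
    intro i j
    simp only [Matrix.mul_apply, P1, Matrix.of_apply, mul_sub, Finset.sum_sub_distrib, mul_ite,
      mul_one, mul_zero, Finset.sum_ite_eq', Finset.mem_univ, if_true]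
  ext i j
  rw [key]
  have h3 := congrFun (antisymm_expand hpl h2
    (fun i => N i (half p l j) - N i (- half p l j)) (by
      intro i
      have e1 := h1 i (half p l j)
      have e2 := h1 i (- half p l j)
      rw [neg_neg] at e2
      rw [← e1, ← e2]
      ring)) i
  exact h3.symm

include hpl in
/-- Core determinant factorisation. -/
theorem core_det [Fact p.Prime] (h2 : ∀ x : R, x + x = 0 → x = 0) (hp0 : (p : R) ≠ 0)
    (τ : R →+* R) (N : Matrix (ZMod p) (ZMod p) R) (lam : R)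
    (h1 : ∀ i j, N (-i) (-j) = N i j)
    (hJ : N * JJ p R = JJ p R * N.map τ)
    (h3 : ∀ i, ∑ j, N i j = lam) :
    N.det = lam * (redM p l N).det * τ (redM p l N).det := by
  have hNP := N_mul_P1 hpl h2 N h1
  set P0 : Matrix (ZMod p) Unit R := Matrix.of fun _ _ => 1 with hP0
  set P2 : Matrix (ZMod p) (Fin l) R := JJ p R * P1 p l R with hP2
  have e0 : N * P0 = P0 * (Matrix.of fun _ _ => lam : Matrix Unit Unit R) := by
    ext i j
    simp [Matrix.mul_apply, hP0, h3]
  have hP1map : (P1 p l R).map τ = P1 p l R := by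
    ext i j
    simp only [P1, Matrix.map_apply, Matrix.of_apply, map_sub]
    split_ifs <;> simp
  have e2 : N * P2 = P2 * (redM p l N).map τ := by
    have h4 : N.map τ * P1 p l R = P1 p l R * (redM p l N).map τ := by
      have := congrArg (fun M => M.map τ) hNP
      simp only [Matrix.map_mul, hP1map] at this
      exact this
    rw [hP2, ← Matrix.mul_assoc, hJ, Matrix.mul_assoc, h4, ← Matrix.mul_assoc]
  set B : Matrix (Unit ⊕ (Fin l ⊕ Fin l)) (Unit ⊕ (Fin l ⊕ Fin l)) R :=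
    fromBlocks (Matrix.of fun _ _ => lam) 0 0 (fromBlocks (redM p l N) 0 0 ((redM p l N).map τ))
    with hB
  set P : Matrix (ZMod p) (Unit ⊕ (Fin l ⊕ Fin l)) R := fromCols P0 (fromCols (P1 p l R) P2)
    with hP
  have hint : N * P = P * B := by
    rw [hP, hB, Matrix.mul_fromCols, Matrix.mul_fromCols, Matrix.fromCols_mul_fromBlocks,
      Matrix.fromCols_mul_fromBlocks, e0, e2, hNP]
    simp
  have hcard : Fintype.card (Unit ⊕ (Fin l ⊕ Fin l)) = Fintype.card (ZMod p) := by
    simp [ZMod.card, hpl]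
    ring
  have hinj : ∀ v, P.mulVec v = 0 → v = 0 := by
    intro v hv
    set c := v (Sum.inl ()) with hc
    set a : Fin l → R := fun k => v (Sum.inr (Sum.inl k)) with ha
    set b : Fin l → R := fun k => v (Sum.inr (Sum.inr k)) with hb
    have hv' : v = Sum.elim (fun _ => c) (Sum.elim a b) := by
      ext x
      rcases x with x | x | x <;> rfl
    set u := (P1 p l R).mulVec a with hu
    set w := (P1 p l R).mulVec b with hw
    have hsum : ∀ i, c + (u i + (w (i - 1) - w (i + 1))) = 0 := by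
      intro i
      have h5 := congrFun hv i
      rw [hv', hP, Matrix.fromCols_mulVec_sumElim, Matrix.fromCols_mulVec_sumElim] at h5
      simp only [Pi.add_apply, Pi.zero_apply] at h5
      rw [hP2, ← Matrix.mulVec_mulVec, ← hw, ← hu, JJ_mulVec] at h5
      simpa [hP0, Matrix.mulVec, dotProduct] using h5
    have hu0 : ∀ i, u i = 0 := by
      intro i
      have h6 := hsum i
      have h7 := hsum (-i)
      have e3 : u (-i) = - u i := P1_mulVec_neg a i
      have e4 : w (-i - 1) = - w (i + 1) := by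
        rw [← P1_mulVec_neg b (i + 1)]; congr 1; ring
      have e5 : w (-i + 1) = - w (i - 1) := by
        rw [← P1_mulVec_neg b (i - 1)]; congr 1; ring
      rw [e3, e4, e5] at h7
      apply h2
      linear_combination h6 - h7
    have hcw : ∀ i, c + (w (i - 1) - w (i + 1)) = 0 := by
      intro i
      have := hsum i
      rw [hu0, zero_add] at this
      exact this
    have hc0 : c = 0 := by
      have h8 : ∑ i : ZMod p, (c + (w (i - 1) - w (i + 1))) = 0 :=
        Finset.sum_eq_zero (fun i _ => hcw i)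
      rw [Finset.sum_add_distrib, Finset.sum_sub_distrib] at h8
      have e6 : ∑ i : ZMod p, w (i - 1) = ∑ i, w i := Equiv.sum_comp (Equiv.subRight (1 : ZMod p)) w
      have e7 : ∑ i : ZMod p, w (i + 1) = ∑ i, w i := Equiv.sum_comp (Equiv.addRight (1 : ZMod p)) w
      rw [e6, e7, sub_self, add_zero, Finset.sum_const, Finset.card_univ, ZMod.card, nsmul_eq_mul] at h8
      exact (mul_eq_zero.mp h8).resolve_left hp0
    have hw0 : ∀ i, w i = 0 := by
      intro i
      have h9 : ∀ i, w (i - 1) = w (i + 1) := by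
        intro i
        have := hcw i
        rw [hc0, zero_add] at this
        exact sub_eq_zero.mp this
      rw [const_of_shift_two hpl w h9 i 0]
      apply h2
      have := P1_mulVec_neg (p := p) b 0
      rw [neg_zero] at this
      rw [← hw] at this
      nth_rewrite 1 [this]
      ring
    rw [hv']
    have ha0 : a = 0 := by
      ext k
      rw [← P1_mulVec_half hpl a k, ← hu, hu0]; rfl
    have hb0 : b = 0 := by
      ext k
      rw [← P1_mulVec_half hpl b k, ← hw, hw0]; rfl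
    rw [ha0, hb0, hc0]
    ext x
    rcases x with x | x | x <;> rfl
  rw [det_eq_of_intertwine (Fintype.equivOfCardEq hcard) N B P hint hinj, hB,
    Matrix.det_fromBlocks_zero₂₁, Matrix.det_fromBlocks_zero₂₁, ← RingHom.mapMatrix_apply,
    ← RingHom.map_det, mul_assoc]
  simp

end Main
end LinAlg

/-! ## Fox calculus -/

section FoxCalc

open Matrix


section Fox

variable {X : Type*} [DecidableEq X]

lemma foxWord_append (j : X) (L1 L2 : List (X × Bool)) :
    foxWord j (L1 ++ L2) =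
      foxWord j L1 + MonoidAlgebra.of ℤ (FreeGroup X) (FreeGroup.mk L1) * foxWord j L2 := by
  induction L1 with
  | nil =>
    rw [List.nil_append, ← FreeGroup.one_eq_mk, map_one, one_mul]
    simp [foxWord]
  | cons a L1 ih =>
    obtain ⟨i, b⟩ := a
    cases b with
    | true =>
      have h : FreeGroup.mk ((i, true) :: L1) = FreeGroup.of i * FreeGroup.mk L1 := by
        rw [FreeGroup.of, FreeGroup.mul_mk]; rfl
      rw [List.cons_append, foxWord, ih, h, map_mul]
      conv_rhs => rw [foxWord]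
      noncomm_ring
    | false =>
      have h : FreeGroup.mk ((i, false) :: L1) = (FreeGroup.of i)⁻¹ * FreeGroup.mk L1 := by
        rw [FreeGroup.of, FreeGroup.inv_mk, FreeGroup.mul_mk]; rfl
      rw [List.cons_append, foxWord, ih, h, map_mul]
      conv_rhs => rw [foxWord]
      noncomm_ring

lemma foxWord_step (j : X) {L1 L2 : List (X × Bool)} (h : FreeGroup.Red.Step L1 L2) :
    foxWord j L1 = foxWord j L2 := by
  cases h with
  | @not L1 L2 x b =>
    rw [foxWord_append, foxWord_append]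
    congr 2
    cases b with
    | true =>
      simp only [Bool.not_true, foxWord]
      rw [← mul_assoc, ← map_mul, mul_inv_cancel, map_one, one_mul]
      abel
    | false =>
      simp only [Bool.not_false, foxWord]
      rw [add_sub_cancel_left, ← mul_assoc, ← map_mul, inv_mul_cancel, map_one, one_mul]

lemma foxWord_red (j : X) {L1 L2 : List (X × Bool)} (h : FreeGroup.Red L1 L2) :
    foxWord j L1 = foxWord j L2 := by
  induction h with
  | refl => rfl
  | tail _ h2 ih => rw [ih, foxWord_step j h2]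

lemma fox_mk (j : X) (L : List (X × Bool)) : fox j (FreeGroup.mk L) = foxWord j L := by
  unfold fox
  rw [FreeGroup.toWord_mk]
  exact (foxWord_red j FreeGroup.reduce.red).symm

lemma fox_mul (j : X) (u v : FreeGroup X) :
    fox j (u * v) = fox j u + MonoidAlgebra.of ℤ (FreeGroup X) u * fox j v := by
  rw [← FreeGroup.mk_toWord (x := u), ← FreeGroup.mk_toWord (x := v), FreeGroup.mul_mk, fox_mk,
    fox_mk, fox_mk, foxWord_append]

lemma fox_of (j i : X) : fox j (FreeGroup.of i) = if i = j then 1 else 0 := by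
  rw [FreeGroup.of, fox_mk]
  simp [foxWord]

/-! ### evaluation under a matrix representation -/

variable {ι R : Type*} [Fintype ι] [DecidableEq ι] [CommRing R]

/-- image of the Fox derivative under a matrix representation of the free group -/
noncomputable def DD (ρ : FreeGroup X →* Matrix ι ι R) (j : X) (w : FreeGroup X) :
    Matrix ι ι R :=
  MonoidAlgebra.lift ℤ (Matrix ι ι R) (FreeGroup X) ρ (fox j w)

lemma DD_mul (ρ : FreeGroup X →* Matrix ι ι R) (j : X) (u v : FreeGroup X) :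
    DD ρ j (u * v) = DD ρ j u + ρ u * DD ρ j v := by
  unfold DD
  rw [fox_mul, map_add, map_mul, MonoidAlgebra.lift_of]

lemma DD_of (ρ : FreeGroup X →* Matrix ι ι R) (j i : X) :
    DD ρ j (FreeGroup.of i) = if i = j then 1 else 0 := by
  unfold DD
  rw [fox_of]
  split_ifs <;> simp

lemma DD_one (ρ : FreeGroup X →* Matrix ι ι R) (j : X) : DD ρ j 1 = 0 := by
  have h := DD_mul ρ j 1 1
  rw [mul_one, map_one, one_mul] at h
  simpa using h

lemma DD_inv (ρ : FreeGroup X →* Matrix ι ι R) (j : X) (u : FreeGroup X) :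
    DD ρ j u⁻¹ = - (ρ u⁻¹ * DD ρ j u) := by
  have h := DD_mul ρ j u⁻¹ u
  rw [inv_mul_cancel, DD_one] at h
  exact eq_neg_of_add_eq_zero_left h.symm

/-- The fundamental formula of the Fox calculus. -/
lemma DD_fundamental [Fintype X] (ρ : FreeGroup X →* Matrix ι ι R) (w : FreeGroup X) :
    ∑ j, DD ρ j w * (ρ (FreeGroup.of j) - 1) = ρ w - 1 := by
  have hmul : ∀ u v : FreeGroup X, (∑ j, DD ρ j u * (ρ (FreeGroup.of j) - 1) = ρ u - 1) →
      (∑ j, DD ρ j v * (ρ (FreeGroup.of j) - 1) = ρ v - 1) →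
      (∑ j, DD ρ j (u * v) * (ρ (FreeGroup.of j) - 1) = ρ (u * v) - 1) := by
    intro u v hu hv
    simp only [DD_mul, add_mul, Finset.sum_add_distrib, hu, Matrix.mul_assoc]
    rw [← Finset.mul_sum, hv, map_mul]
    noncomm_ring
  have hof : ∀ i : X, ∑ j, DD ρ j (FreeGroup.of i) * (ρ (FreeGroup.of j) - 1) =
      ρ (FreeGroup.of i) - 1 := by
    intro i
    simp only [DD_of, ite_mul, one_mul, zero_mul]
    rw [Finset.sum_ite_eq]
    simp
  have hinv : ∀ u : FreeGroup X, (∑ j, DD ρ j u * (ρ (FreeGroup.of j) - 1) = ρ u - 1) →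
      (∑ j, DD ρ j u⁻¹ * (ρ (FreeGroup.of j) - 1) = ρ u⁻¹ - 1) := by
    intro u hu
    simp only [DD_inv, neg_mul, Matrix.mul_assoc, Finset.sum_neg_distrib]
    rw [← Finset.mul_sum, hu, mul_sub, ← map_mul, inv_mul_cancel, map_one, mul_one]
    noncomm_ring
  induction w using FreeGroup.induction_on with
  | C1 => simp [DD_one]
  | of x => exact hof x
  | inv_of x h => exact hinv _ h
  | mul x y hx hy => exact hmul x y hx hy

/-- The subgroup of elements whose Fox derivatives are combinations of those of the relators. -/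
def conseq {I : Type*} [Fintype I] (ρ : FreeGroup X →* Matrix ι ι R)
    (rel : I → FreeGroup X) : Subgroup (FreeGroup X) where
  carrier := {w | ρ w = 1 ∧ ∃ C : I → Matrix ι ι R, ∀ j, DD ρ j w = ∑ i, C i * DD ρ j (rel i)}
  one_mem' := by
    refine ⟨map_one ρ, fun _ => 0, fun j => ?_⟩
    simp [DD_one]
  mul_mem' := by
    rintro a b ⟨ha, Ca, hCa⟩ ⟨hb, Cb, hCb⟩
    refine ⟨by rw [map_mul, ha, hb, one_mul], Ca + Cb, fun j => ?_⟩
    rw [DD_mul, ha, one_mul, hCa, hCb, ← Finset.sum_add_distrib]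
    exact Finset.sum_congr rfl (fun i _ => by rw [Pi.add_apply, add_mul])
  inv_mem' := by
    rintro a ⟨ha, Ca, hCa⟩
    have hai : ρ a⁻¹ = 1 := by
      have := map_mul ρ a⁻¹ a
      rw [inv_mul_cancel, map_one, ha, mul_one] at this
      exact this.symm
    refine ⟨hai, -Ca, fun j => ?_⟩
    rw [DD_inv, hai, one_mul, hCa, ← Finset.sum_neg_distrib]
    exact Finset.sum_congr rfl (fun i _ => by rw [Pi.neg_apply, neg_mul])

lemma conseq_normal {I : Type*} [Fintype I] (ρ : FreeGroup X →* Matrix ι ι R)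
    (rel : I → FreeGroup X) : (conseq ρ rel).Normal := by
  constructor
  rintro a ⟨ha, Ca, hCa⟩ g
  refine ⟨?_, fun i => ρ g * Ca i, fun j => ?_⟩
  · rw [map_mul, map_mul, ha, mul_one, ← map_mul, mul_inv_cancel, map_one]
  · rw [DD_mul, DD_mul, map_mul, ha, mul_one, DD_inv, hCa, mul_neg, ← mul_assoc, ← map_mul,
      mul_inv_cancel, map_one, one_mul, Finset.mul_sum]
    simp only [Matrix.mul_assoc]
    abel

/-- Derivatives of consequences of relators are combinations of the derivatives of relators. -/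
lemma DD_normalClosure {I : Type*} [Fintype I] (ρ : FreeGroup X →* Matrix ι ι R)
    (rel : I → FreeGroup X) (hrel : ∀ i, ρ (rel i) = 1) (w : FreeGroup X)
    (hw : w ∈ Subgroup.normalClosure (Set.range rel)) :
    ρ w = 1 ∧ ∃ C : I → Matrix ι ι R, ∀ j, DD ρ j w = ∑ i, C i * DD ρ j (rel i) := by
  classical
  have hn := conseq_normal ρ rel
  have hle : Subgroup.normalClosure (Set.range rel) ≤ conseq ρ rel := by
    apply Subgroup.normalClosure_le_normal
    rintro _ ⟨i, rfl⟩
    refine ⟨hrel i, Pi.single i 1, fun j => ?_⟩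
    rw [Finset.sum_eq_single i]
    · simp
    · intro b _ hb
      rw [Pi.single_eq_of_ne hb, zero_mul]
    · intro h; exact absurd (Finset.mem_univ _) h
  exact hle hw

end Fox
end FoxCalc

/-! ## The symmetry of Schubert's relator -/

section Word
/-- cyclic sign sequence -/
def sg (a : ℕ) (b : ℤ) (i : ℤ) : ℤ :=
  if 1 ≤ (i * b) % (2 * a) ∧ (i * b) % (2 * a) ≤ a then 1 else -1

/-- cyclic letter sequence -/
def LL (a : ℕ) (b : ℤ) (i : ℤ) : FreeGroup (Fin 2) :=
  FreeGroup.of (if Odd i then (0 : Fin 2) else 1) ^ sg a b i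

/-- product of letters -/
def Pr {G : Type*} [Group G] (L : ℤ → G) (s : ℤ) : ℕ → G
  | 0 => 1
  | n + 1 => Pr L s n * L (s + n + 1)

section Pr
variable {G : Type*} [Group G] (L : ℤ → G)

lemma Pr_add (s : ℤ) (n m : ℕ) : Pr L s (n + m) = Pr L s n * Pr L (s + n) m := by
  induction m with
  | zero => simp [Pr]
  | succ m ih =>
    rw [← add_assoc, Pr, ih, Pr, mul_assoc]
    congr 3
    push_cast
    ring

lemma Pr_succ_front (s : ℤ) (n : ℕ) : Pr L s (n + 1) = L (s + 1) * Pr L (s + 1) n := by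
  rw [add_comm n 1, Pr_add]
  simp [Pr]

lemma Pr_reverse (τ : G →* G) (c s : ℤ) (n : ℕ)
    (h : ∀ i, s < i → i ≤ s + n → τ (L i) = (L (c - i))⁻¹) :
    τ (Pr L s n) = (Pr L (c - s - n - 1) n)⁻¹ := by
  induction n with
  | zero => simp [Pr]
  | succ n ih =>
    rw [Pr, map_mul, ih (fun i h1 h2 => h i h1 (by push_cast; linarith)),
      h (s + n + 1) (by linarith [Int.natCast_nonneg n]) (by push_cast; linarith),
      Pr_succ_front, ← mul_inv_rev]
    congr 3
    · push_cast
      ring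
    · push_cast
      ring

lemma Pr_periodic (d : ℤ) (h : ∀ i, L (i + d) = L i) (s : ℤ) (n : ℕ) :
    Pr L (s + d) n = Pr L s n := by
  induction n with
  | zero => simp [Pr]
  | succ n ih =>
    rw [Pr, Pr, ih, ← h (s + n + 1)]
    congr 2
    ring

lemma Pr_congr (L' : ℤ → G) (s : ℤ) (n : ℕ) (h : ∀ i, s < i → i ≤ s + n → L i = L' i) :
    Pr L s n = Pr L' s n := by
  induction n with
  | zero => simp [Pr]
  | succ n ih =>
    rw [Pr, Pr, ih (fun i h1 h2 => h i h1 (by push_cast; linarith)),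
      h (s + n + 1) (by linarith [Int.natCast_nonneg n]) (by push_cast; linarith)]

end Pr

section Sign

variable {a : ℕ} {b : ℤ}

lemma sg_eq_one (ha : 0 < a) (i k : ℤ) (h1 : 1 ≤ i * b - 2 * a * k) (h2 : i * b - 2 * a * k ≤ a) :
    sg a b i = 1 := by
  have h3 : (i * b) % (2 * a) = i * b - 2 * a * k := by
    have : i * b = (i * b - 2 * a * k) + (2 * a) * k := by ring
    rw [this, Int.add_mul_emod_self_left, ← this]
    exact Int.emod_eq_of_lt (by linarith) (by
      have : (0 : ℤ) < a := by exact_mod_cast ha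
      linarith)
  unfold sg
  rw [h3, if_pos ⟨h1, h2⟩]

lemma sg_eq_neg_one (i k : ℤ) (h1 : a + 1 ≤ i * b - 2 * a * k)
    (h2 : i * b - 2 * a * k ≤ 2 * a) :
    sg a b i = -1 := by
  unfold sg
  rw [if_neg]
  rintro ⟨h3, h4⟩
  by_cases h5 : i * b - 2 * a * k = 2 * a
  · have h6 : i * b = (2 * a) * (k + 1) := by linarith
    rw [h6, Int.mul_emod_right] at h3
    linarith
  · have h3' : (i * b) % (2 * a) = i * b - 2 * a * k := by
      have : i * b = (i * b - 2 * a * k) + (2 * a) * k := by ring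
      rw [this, Int.add_mul_emod_self_left, ← this]
      refine Int.emod_eq_of_lt ?_ ?_
      · have : (0 : ℤ) ≤ a := Int.natCast_nonneg a
        linarith
      · exact lt_of_le_of_ne h2 h5
    rw [h3'] at h4
    linarith

lemma sg_cases (ha : 0 < a) (b i : ℤ) :
    (∃ k, 1 ≤ i * b - 2 * a * k ∧ i * b - 2 * a * k ≤ a) ∨
    (∃ k, a + 1 ≤ i * b - 2 * a * k ∧ i * b - 2 * a * k ≤ 2 * a) := by
  have ha' : (0 : ℤ) < 2 * a := by exact_mod_cast (by omega : 0 < 2 * a)
  have h1 := Int.emod_nonneg (i * b) (ne_of_gt ha')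
  have h2 := Int.emod_lt_of_pos (i * b) ha'
  have h3 := Int.mul_ediv_add_emod (i * b) (2 * a)
  set q := (i * b) / (2 * a)
  set m := (i * b) % (2 * a)
  by_cases h4 : m = 0
  · right
    refine ⟨q - 1, ?_, ?_⟩
    · have : i * b - 2 * a * (q - 1) = 2 * a := by linarith
      rw [this]; 
      have : (1:ℤ) ≤ a := by exact_mod_cast ha
      linarith
    · linarith
  · by_cases h5 : m ≤ a
    · left
      exact ⟨q, by omega, by linarith⟩
    · right
      refine ⟨q, ?_, by linarith⟩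
      have : (a : ℤ) + 1 ≤ m := by omega
      linarith

lemma sg_periodic (a : ℕ) (b i : ℤ) : sg a b (i + 2 * a) = sg a b i := by
  unfold sg
  have : (i + 2 * a) * b = i * b + (2 * a) * b := by ring
  rw [this, Int.add_mul_emod_self_left]

lemma LL_periodic (a : ℕ) (b i : ℤ) : LL a b (i + 2 * a) = LL a b i := by
  unfold LL
  rw [sg_periodic]
  have : Odd (i + 2 * (a:ℤ)) ↔ Odd i := by
    rw [Int.odd_add]
    simp
  simp only [this]

/-- swapping the two generators -/
def swap : FreeGroup (Fin 2) →* FreeGroup (Fin 2) :=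
  FreeGroup.lift fun i => FreeGroup.of (Equiv.swap 0 1 i)

lemma swap_LL (ha : 0 < a) (b' c : ℤ) (hb' : b' * b = 1 + 2 * a * c) (i : ℤ) :
    swap (LL a b i) = (LL a b (b' - i))⁻¹ := by
  have hodd : Odd b' := by
    have h1 : Odd (b' * b) := by
      rw [hb']
      exact ⟨a * c, by ring⟩
    exact (Int.odd_mul.mp h1).1
  have hpar : Odd (b' - i) ↔ ¬ Odd i := by
    rw [Int.odd_sub]
    simp [hodd]
  have hsg : sg a b (b' - i) = - sg a b i := by
    have e : (b' - i) * b = 1 + 2 * a * c - i * b := by rw [← hb']; ring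
    rcases sg_cases ha b i with ⟨k, h1, h2⟩ | ⟨k, h1, h2⟩
    · rw [sg_eq_one ha i k h1 h2]
      apply sg_eq_neg_one (b' - i) (c - k - 1)
      · rw [e]; nlinarith
      · rw [e]; nlinarith
    · rw [sg_eq_neg_one i k h1 h2, neg_neg]
      apply sg_eq_one ha (b' - i) (c - k - 1)
      · rw [e]; nlinarith
      · rw [e]; nlinarith
  unfold LL
  rw [map_zpow, hsg, ← zpow_neg, neg_neg]
  congr 1
  unfold swap
  rw [FreeGroup.lift_apply_of]
  congr 1
  by_cases h : Odd i
  · rw [if_pos h, if_neg (by rw [hpar]; exact not_not.mpr h)]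
    simp
  · rw [if_neg h, if_pos (hpar.mpr h)]
    simp

end Sign

lemma list_prod_eq_Pr {G : Type*} [Group G] (L : ℤ → G) (n : ℕ) :
    ((List.range n).map fun i : ℕ => L (i + 1)).prod = Pr L 0 n := by
  induction n with
  | zero => simp [Pr]
  | succ n ih =>
    rw [List.range_succ, List.map_append, List.prod_append, ih, Pr]
    simp

section Rel

variable {a : ℕ} {b : ℤ}

lemma sg_eq_eps (ha : 0 < a) (hab : IsCoprime (a : ℤ) b) (i : ℕ) (h0 : 0 < i) (hi : i < a) :
    sg a b i = eps a b i := by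
  have ha' : (0 : ℤ) < a := by exact_mod_cast ha
  have h1 := Int.emod_nonneg (i * b) (ne_of_gt ha')
  have h2 := Int.emod_lt_of_pos (i * b) ha'
  have h3 := Int.mul_ediv_add_emod (i * b) a
  have h4 : (i * b) % (a:ℤ) ≠ 0 := by
    intro h
    have h5 : (a : ℤ) ∣ i * b := Int.dvd_of_emod_eq_zero h
    have h6 : (a : ℤ) ∣ i := hab.dvd_of_dvd_mul_right h5
    have h7 : a ∣ i := by exact_mod_cast h6
    have := Nat.le_of_dvd h0 h7
    omega
  unfold eps
  set q := (i * b) / (a:ℤ)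
  set m := (i * b) % (a:ℤ)
  split_ifs with hq
  · obtain ⟨k, hk⟩ := hq
    apply sg_eq_one ha i k
    · have : (i : ℤ) * b - 2 * a * k = m := by rw [hk] at h3; linarith
      omega
    · have : (i : ℤ) * b - 2 * a * k = m := by rw [hk] at h3; linarith
      omega
  · rw [Int.not_even_iff_odd] at hq
    obtain ⟨k, hk⟩ := hq
    apply sg_eq_neg_one i k
    · have : (i : ℤ) * b - 2 * a * k = a + m := by rw [hk] at h3; linarith
      omega
    · have : (i : ℤ) * b - 2 * a * k = a + m := by rw [hk] at h3; linarith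
      omega

lemma schubertWord_eq (ha : 0 < a) (hab : IsCoprime (a : ℤ) b) :
    schubertWord a b = Pr (LL a b) 0 (a - 1) := by
  rw [← list_prod_eq_Pr]
  unfold schubertWord
  congr 1
  apply List.map_congr_left
  intro i hi
  rw [List.mem_range] at hi
  unfold LL
  have h1 : sg a b ((i : ℤ) + 1) = eps a b (i + 1) := by
    have := sg_eq_eps ha hab (i + 1) (by omega) (by omega)
    rw [← this]
    push_cast
    rfl
  rw [h1]
  congr 2
  have : Odd ((i : ℤ) + 1) ↔ Even i := by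
    rw [← Int.not_even_iff_odd, Int.even_add_one, not_not, Int.even_coe_nat]
  simp only [this]

lemma schubertRel_eq (ha : Odd a) (hb : Odd b) (hab : IsCoprime (a : ℤ) b) :
    schubertRel a b = Pr (LL a b) 0 (2 * a) := by
  have hapos : 0 < a := ha.pos
  have ha' : (0 : ℤ) < a := by exact_mod_cast hapos
  have hsplit : 2 * a = (((a - 1) + 1) + (a - 1)) + 1 := by omega
  have hcast : ((a - 1 : ℕ) : ℤ) = a - 1 := by push_cast [Nat.cast_sub hapos]; ring
  obtain ⟨b0, hb0⟩ := hb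
  rw [hsplit, Pr, Pr_add, Pr, ← schubertWord_eq hapos hab]
  unfold schubertRel
  have e1 : LL a b (0 + ((a - 1 : ℕ) : ℤ) + 1) = FreeGroup.of 0 := by
    have : (0 + ((a - 1 : ℕ) : ℤ) + 1) = a := by rw [hcast]; ring
    rw [this]
    unfold LL
    rw [if_pos (by exact_mod_cast ha), sg_eq_one hapos a b0]
    · simp
    · rw [hb0]; ring_nf; omega
    · rw [hb0]; ring_nf; omega
  have e2 : Pr (LL a b) (0 + ((a - 1 + 1 : ℕ) : ℤ)) (a - 1) = (schubertWord a b)⁻¹ := by
    have : (0 + ((a - 1 + 1 : ℕ) : ℤ)) = a := by push_cast [hcast]; ring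
    rw [this]
    have h1 := Pr_reverse (LL a b) (MonoidHom.id _) (2 * a) a (a - 1) ?_
    · rw [MonoidHom.id_apply] at h1
      rw [h1, schubertWord_eq hapos hab]
      congr 2
      rw [hcast]; ring
    · intro i h2 h3
      rw [MonoidHom.id_apply]
      rw [hcast] at h3
      have hsg : sg a b (2 * a - i) = - sg a b i := by
        have hi0 : ¬ (a : ℤ) ∣ i * b := by
          intro h5
          have h6 : (a : ℤ) ∣ i := hab.dvd_of_dvd_mul_right h5
          have h7 : (a : ℤ) ∣ i - a := dvd_sub_self_right.mpr h6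
          have := Int.le_of_dvd (by linarith) h7
          linarith
        rcases sg_cases hapos b i with ⟨k, h1, h2⟩ | ⟨k, h1, h2⟩
        · rw [sg_eq_one hapos i k h1 h2]
          have hne : i * b - 2 * a * k ≠ a := by
            intro h; apply hi0
            exact ⟨2 * k + 1, by linarith⟩
          apply sg_eq_neg_one (2 * a - i) (b - k - 1)
          · have h8 : i * b - 2 * a * k < a := lt_of_le_of_ne h2 hne
            nlinarith
          · nlinarith
        · rw [sg_eq_neg_one i k h1 h2, neg_neg]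
          have hne : i * b - 2 * a * k ≠ 2 * a := by
            intro h; apply hi0
            exact ⟨2 * k + 2, by linarith⟩
          apply sg_eq_one hapos (2 * a - i) (b - k - 1)
          · have h8 : i * b - 2 * a * k < 2 * a := lt_of_le_of_ne h2 hne
            nlinarith
          · nlinarith
      unfold LL
      rw [hsg, ← zpow_neg, neg_neg]
      have : Odd (2 * (a:ℤ) - i) ↔ Odd i := by
        rw [← Int.not_even_iff_odd, ← Int.not_even_iff_odd, Int.even_sub]
        simp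
      by_cases hi : Odd i
      · rw [if_pos hi, if_pos (this.mpr hi)]
      · rw [if_neg hi, if_neg (fun h => hi (this.mp h))]
  have e3 : LL a b (0 + ((a - 1 + 1 + (a - 1) : ℕ) : ℤ) + 1) = (FreeGroup.of 1)⁻¹ := by
    have : (0 + ((a - 1 + 1 + (a - 1) : ℕ) : ℤ) + 1) = 2 * a := by push_cast [hcast]; ring
    rw [this]
    unfold LL
    rw [if_neg (by simp), sg_eq_neg_one (2 * a) (b - 1)]
    · simp
    · have : 2 * (a:ℤ) * b - 2 * a * (b - 1) = 2 * a := by ring
      rw [this]; omega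
    · linarith
  rw [e1, e2, e3]

/-- The key symmetry of the Schubert relator. -/
theorem schubert_symm (ha : Odd a) (hb : Odd b) (hab : IsCoprime (a : ℤ) b) :
    ∃ g : FreeGroup (Fin 2), swap g = g⁻¹ ∧
      swap (schubertRel a b) = g⁻¹ * (schubertRel a b)⁻¹ * g := by
  have hapos : 0 < a := ha.pos
  have ha' : (0 : ℤ) < a := by exact_mod_cast hapos
  have hcop : IsCoprime b (2 * a : ℤ) := by
    apply IsCoprime.mul_right _ hab.symm
    obtain ⟨k, hk⟩ := hb
    exact ⟨1, -k, by rw [hk]; ring⟩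
  obtain ⟨u, v, huv⟩ := hcop
  -- a natural number inverse
  have hn : ∃ n : ℕ, 0 < n ∧ ∃ c : ℤ, (n : ℤ) * b = 1 + 2 * a * c := by
    have h2a : (0 : ℤ) < 2 * a := by linarith
    refine ⟨(u % (2 * a)).toNat, ?_, ?_⟩
    · have h1 := Int.emod_nonneg u (ne_of_gt h2a)
      have h2 : u % (2 * a) ≠ 0 := by
        intro h
        have h3 : (2 * a : ℤ) ∣ u := Int.dvd_of_emod_eq_zero h
        have h4 : (2 * a : ℤ) ∣ 1 := by
          rw [← huv]
          exact dvd_add (h3.mul_right _) (Dvd.intro_left _ rfl)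
        have := Int.le_of_dvd one_pos h4
        linarith
      omega
    · have h1 := Int.emod_nonneg u (ne_of_gt h2a)
      have h3 := Int.mul_ediv_add_emod u (2 * a)
      refine ⟨- v - (u / (2 * a)) * b, ?_⟩
      rw [Int.toNat_of_nonneg h1]
      have h4 : u % (2 * a) = u - 2 * a * (u / (2 * a)) := by linarith
      rw [h4]
      linear_combination huv
  obtain ⟨n, hn0, c, hc⟩ := hn
  have hnc : ((n - 1 : ℕ) : ℤ) = n - 1 := by push_cast [Nat.cast_sub hn0]; ring
  refine ⟨Pr (LL a b) 0 (n - 1), ?_, ?_⟩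
  · rw [Pr_reverse (LL a b) swap n 0 (n - 1) (fun i _ _ => swap_LL hapos n c hc i)]
    congr 2
    rw [hnc]; ring
  · rw [schubertRel_eq ha hb hab,
      Pr_reverse (LL a b) swap n 0 (2 * a) (fun i _ _ => swap_LL hapos n c hc i)]
    have e1 : Pr (LL a b) ((n:ℤ) - 0 - ((2 * a : ℕ) : ℤ) - 1) (2 * a) =
        Pr (LL a b) (0 + ((n - 1 : ℕ) : ℤ)) (2 * a) := by
      rw [← Pr_periodic (LL a b) (2 * a) (LL_periodic a b)]
      congr 1
      rw [hnc]; push_cast; ring
    have e2 : Pr (LL a b) 0 (n - 1) * Pr (LL a b) (0 + ((n - 1 : ℕ) : ℤ)) (2 * a) =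
        Pr (LL a b) 0 (2 * a) * Pr (LL a b) 0 (n - 1) := by
      rw [← Pr_add, add_comm, Pr_add]
      congr 1
      rw [← Pr_periodic (LL a b) (2 * a) (LL_periodic a b) 0]
      push_cast
      rfl
    rw [e1]
    have e3 : Pr (LL a b) (0 + ((n - 1 : ℕ) : ℤ)) (2 * a) =
        (Pr (LL a b) 0 (n - 1))⁻¹ * (Pr (LL a b) 0 (2 * a) * Pr (LL a b) 0 (n - 1)) := by
      rw [← e2]; group
    rw [e3]
    group

end Rel
end Word

/-! ## The two-generator presentation -/

section CoreSec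

open Matrix


lemma dihAct_one {p : ℕ} (n : ZMod p) : dihAct (1 : DihedralGroup p) n = n := by
  rw [DihedralGroup.one_def]
  simp [dihAct]

lemma dihAct_inv_mul {p : ℕ} (g : DihedralGroup p) (n : ZMod p) :
    dihAct g⁻¹ (dihAct g n) = n := by
  rw [← dihAct_mul, inv_mul_cancel, dihAct_one]

lemma dihAct_mul_inv {p : ℕ} (g : DihedralGroup p) (n : ZMod p) :
    dihAct g (dihAct g⁻¹ n) = n := by
  rw [← dihAct_mul, mul_inv_cancel, dihAct_one]

lemma dihAct_eq_iff {p : ℕ} (g : DihedralGroup p) (i j : ZMod p) :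
    i = dihAct g j ↔ dihAct g⁻¹ i = j := by
  constructor
  · intro h; rw [h, dihAct_inv_mul]
  · intro h; rw [← h, dihAct_mul_inv]

/-- the monomial matrix `u ϱ(g)` -/
def mono {p : ℕ} {R : Type*} [CommRing R] (u : R) (g : DihedralGroup p) :
    Matrix (ZMod p) (ZMod p) R :=
  Matrix.of fun i j => if i = dihAct g j then u else 0

section mono
variable {p : ℕ} {R : Type*} [CommRing R]

lemma mul_mono [NeZero p] (Q : Matrix (ZMod p) (ZMod p) R) (u : R) (g : DihedralGroup p)
    (i j : ZMod p) : (Q * mono u g) i j = Q i (dihAct g j) * u := by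
  simp [Matrix.mul_apply, mono]

lemma mono_mul [NeZero p] (Q : Matrix (ZMod p) (ZMod p) R) (u : R) (g : DihedralGroup p)
    (i j : ZMod p) : (mono u g * Q) i j = u * Q (dihAct g⁻¹ i) j := by
  simp only [Matrix.mul_apply, mono, Matrix.of_apply, dihAct_eq_iff, ite_mul, zero_mul]
  rw [Finset.sum_ite_eq]
  simp

lemma mono_mul_mono [NeZero p] (u v : R) (g h : DihedralGroup p) :
    mono u g * mono v h = mono (u * v) (g * h) := by
  ext i j
  rw [mul_mono]
  simp only [mono, Matrix.of_apply, dihAct_mul, ite_mul, zero_mul]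

lemma mono_one [NeZero p] : (mono (1 : R) (1 : DihedralGroup p)) = 1 := by
  ext i j
  simp [mono, dihAct_one, Matrix.one_apply]

/-- the twisted permutation representation attached to a character `χ` and a hom `δ` to `D_p`. -/
def twRep [NeZero p] {G : Type*} [Monoid G] (χ : G →* R) (δ : G →* DihedralGroup p) :
    G →* Matrix (ZMod p) (ZMod p) R where
  toFun g := mono (χ g) (δ g)
  map_one' := by rw [map_one, map_one, mono_one]
  map_mul' g h := by rw [map_mul, map_mul, mono_mul_mono]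

lemma twRep_apply [NeZero p] {G : Type*} [Monoid G] (χ : G →* R) (δ : G →* DihedralGroup p) (g : G) :
    twRep χ δ g = mono (χ g) (δ g) := rfl

lemma mono_row_sum [NeZero p] (u : R) (g : DihedralGroup p) (i : ZMod p) :
    ∑ j, mono u g i j = u := by
  simp only [mono, Matrix.of_apply, dihAct_eq_iff]
  rw [Finset.sum_ite_eq]
  simp

lemma mono_map {S : Type*} [CommRing S] (τ : R →+* S) (u : R) (g : DihedralGroup p) :
    (mono u g).map τ = mono (τ u) g := by
  ext i j
  simp only [mono, Matrix.map_apply, Matrix.of_apply]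
  split_ifs <;> simp

lemma mul_JJ [NeZero p] (Q : Matrix (ZMod p) (ZMod p) R) (i j : ZMod p) :
    (Q * JJ p R) i j = Q i (j + 1) - Q i (j - 1) := by
  simp [Matrix.mul_apply, JJ, mul_sub, Finset.sum_sub_distrib]

lemma JJ_mul [NeZero p] (Q : Matrix (ZMod p) (ZMod p) R) (i j : ZMod p) :
    (JJ p R * Q) i j = Q (i - 1) j - Q (i + 1) j :=
  JJ_mulVec (fun k => Q k j) i

lemma mono_sr_apply (u : R) (c i j : ZMod p) :
    mono u (DihedralGroup.sr c) i j = if i = c - j then u else 0 := rfl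

lemma mono_r_apply (u : R) (c i j : ZMod p) :
    mono u (DihedralGroup.r c) i j = if i = j - c then u else 0 := rfl

lemma mono_r_JJ [NeZero p] (u : R) (c : ZMod p) :
    mono u (DihedralGroup.r c) * JJ p R = JJ p R * mono u (DihedralGroup.r c) := by
  ext i j
  rw [mul_JJ, JJ_mul]
  simp only [mono_r_apply]
  congr 1
  · apply if_congr _ rfl rfl
    constructor
    · intro h; rw [h]; ring
    · intro h
      have : i = (i - 1) + 1 := by ring
      rw [this, h]; ring
  · apply if_congr _ rfl rfl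
    constructor
    · intro h; rw [h]; ring
    · intro h
      have : i = (i + 1) - 1 := by ring
      rw [this, h]; ring

lemma mono_sr_JJ [NeZero p] (u : R) (c : ZMod p) :
    mono u (DihedralGroup.sr c) * JJ p R = JJ p R * mono (-u) (DihedralGroup.sr c) := by
  ext i j
  rw [mul_JJ, JJ_mul]
  simp only [mono_sr_apply]
  have h1 : (i = c - (j + 1)) ↔ (i + 1 = c - j) := by
    constructor
    · intro h; rw [h]; ring
    · intro h
      have : i = (i + 1) - 1 := by ring
      rw [this, h]; ring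
  have h2 : (i = c - (j - 1)) ↔ (i - 1 = c - j) := by
    constructor
    · intro h; rw [h]; ring
    · intro h
      have : i = (i - 1) + 1 := by ring
      rw [this, h]; ring
  simp only [h1, h2]
  by_cases c1 : i + 1 = c - j <;> by_cases c2 : i - 1 = c - j <;> simp [c1, c2]

end mono

lemma det_submatrix_perm {n R : Type*} [Fintype n] [DecidableEq n] [CommRing R]
    (Q : Matrix n n R) (e1 e2 : Equiv.Perm n) :
    (Q.submatrix e1 e2).det = ((Equiv.Perm.sign e1 * Equiv.Perm.sign e2 : ℤˣ) : ℤ) * Q.det := by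
  have h : Q.submatrix e1 e2 = (Q.submatrix id e2).submatrix e1 id := by
    ext i j; rfl
  rw [h, Matrix.det_permute, Matrix.det_permute']
  push_cast
  ring

section core

variable {p l : ℕ} {R : Type*} [CommRing R]

/-- Subring of matrices `M` with `M J = J τ(M)`. -/
def TJ (p : ℕ) [NeZero p] (τ : R →+* R) : Subring (Matrix (ZMod p) (ZMod p) R) where
  carrier := {M | M * JJ p R = JJ p R * M.map τ}
  mul_mem' := by
    intro a b ha hb
    simp only [Set.mem_ofPred_eq] at *
    rw [Matrix.map_mul, Matrix.mul_assoc, hb, ← Matrix.mul_assoc, ha, Matrix.mul_assoc]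
  one_mem' := by
    simp only [Set.mem_ofPred_eq]
    rw [Matrix.map_one _ (map_zero τ) (map_one τ), Matrix.mul_one, Matrix.one_mul]
  add_mem' := by
    intro a b ha hb
    simp only [Set.mem_ofPred_eq] at *
    rw [Matrix.map_add _ (map_add τ), Matrix.add_mul, Matrix.mul_add, ha, hb]
  zero_mem' := by
    simp only [Set.mem_ofPred_eq]
    rw [Matrix.map_zero _ (map_zero τ), Matrix.mul_zero, Matrix.zero_mul]
  neg_mem' := by
    intro a ha
    simp only [Set.mem_ofPred_eq] at *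
    rw [Matrix.neg_mul, ha, ← Matrix.mul_neg]
    congr 1
    ext i j
    simp

lemma mem_TJ [NeZero p] (τ : R →+* R) (M : Matrix (ZMod p) (ZMod p) R) :
    M ∈ TJ p τ ↔ M * JJ p R = JJ p R * M.map τ := Iff.rfl

/-- the sign (determinant) character of the dihedral group -/
def dsgn {p : ℕ} : DihedralGroup p →* ℤˣ where
  toFun g := match g with
    | .r _ => 1
    | .sr _ => -1
  map_one' := by rw [DihedralGroup.one_def]
  map_mul' g h := by
    rcases g with i | i <;> rcases h with j | j <;> simp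

/-- Setting for the core theorem: a character `χ = t^deg` and a dihedral representation `δ` of the
free group on `x, y` taking `x, y` to distinct reflections. -/
structure Setup (p : ℕ) (R : Type*) [CommRing R] where
  t : Rˣ
  deg : FreeGroup (Fin 2) →* Multiplicative ℤ
  δ : FreeGroup (Fin 2) →* DihedralGroup p
  a : ZMod p
  b : ZMod p
  hx : deg (FreeGroup.of 0) = Multiplicative.ofAdd 1
  hy : deg (FreeGroup.of 1) = Multiplicative.ofAdd 1
  ha : δ (FreeGroup.of 0) = DihedralGroup.sr a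
  hb : δ (FreeGroup.of 1) = DihedralGroup.sr b
  hab : a ≠ b

namespace Setup

variable (𝒮 : Setup p R)

/-- the character `t^deg` -/
def χ : FreeGroup (Fin 2) →* R :=
  (Units.coeHom R).comp ((zpowersHom Rˣ 𝒮.t).comp 𝒮.deg)

lemma χ_apply (w : FreeGroup (Fin 2)) : 𝒮.χ w = ((𝒮.t ^ (𝒮.deg w).toAdd : Rˣ) : R) := by
  simp [χ, zpowersHom_apply]

lemma χ_x : 𝒮.χ (FreeGroup.of 0) = 𝒮.t := by
  rw [χ_apply, 𝒮.hx]; simp

lemma χ_y : 𝒮.χ (FreeGroup.of 1) = 𝒮.t := by
  rw [χ_apply, 𝒮.hy]; simp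

/-- the twisted representation -/
def ρ [NeZero p] : FreeGroup (Fin 2) →* Matrix (ZMod p) (ZMod p) R := twRep 𝒮.χ 𝒮.δ

lemma ρ_x [NeZero p] : 𝒮.ρ (FreeGroup.of 0) = mono (𝒮.t : R) (DihedralGroup.sr 𝒮.a) := by
  rw [ρ, twRep_apply, χ_x, 𝒮.ha]

lemma ρ_y [NeZero p] : 𝒮.ρ (FreeGroup.of 1) = mono (𝒮.t : R) (DihedralGroup.sr 𝒮.b) := by
  rw [ρ, twRep_apply, χ_y, 𝒮.hb]

lemma dsgn_δ (w : FreeGroup (Fin 2)) : dsgn (𝒮.δ w) = (-1) ^ (𝒮.deg w).toAdd := by
  have h : dsgn.comp 𝒮.δ = (zpowersHom ℤˣ (-1)).comp 𝒮.deg := by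
    apply FreeGroup.ext_hom
    intro i
    fin_cases i
    · simp [𝒮.ha, 𝒮.hx, dsgn]
    · simp [𝒮.hb, 𝒮.hy, dsgn]
  exact DFunLike.congr_fun h w

lemma deg_swap (w : FreeGroup (Fin 2)) : 𝒮.deg (swap w) = 𝒮.deg w := by
  have h : 𝒮.deg.comp swap = 𝒮.deg := by
    apply FreeGroup.ext_hom
    intro i
    fin_cases i
    · simp [swap, 𝒮.hx, 𝒮.hy]
    · simp [swap, 𝒮.hx, 𝒮.hy]
  exact DFunLike.congr_fun h w

lemma χ_swap (w : FreeGroup (Fin 2)) : 𝒮.χ (swap w) = 𝒮.χ w := by
  rw [χ_apply, χ_apply, deg_swap]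

/-- the bisecting reflection -/
def k [Fact p.Prime] : ZMod p := (𝒮.a + 𝒮.b) / 2

lemma two_ne_zero' [Fact p.Prime] (hpl : p = 2 * l + 1) : (2 : ZMod p) ≠ 0 := by
  have h4 : ((2 : ℕ) : ZMod p) ≠ 0 := by
    rw [Ne, ZMod.natCast_eq_zero_iff]
    intro hd
    have := Nat.le_of_dvd (by norm_num) hd
    have := (Fact.out : p.Prime).two_le
    omega
  exact_mod_cast h4

lemma two_k [Fact p.Prime] (hpl : p = 2 * l + 1) : 2 * 𝒮.k = 𝒮.a + 𝒮.b := by
  unfold k
  rw [mul_div_cancel₀ _ (two_ne_zero' hpl)]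

lemma δ_swap [Fact p.Prime] (hpl : p = 2 * l + 1) (w : FreeGroup (Fin 2)) :
    𝒮.δ (swap w) = DihedralGroup.sr 𝒮.k * 𝒮.δ w * DihedralGroup.sr 𝒮.k := by
  have hinv : (DihedralGroup.sr 𝒮.k)⁻¹ = DihedralGroup.sr 𝒮.k := by
    rw [inv_eq_iff_mul_eq_one]; simp
  have h : 𝒮.δ.comp swap = (MulAut.conj (DihedralGroup.sr 𝒮.k)).toMonoidHom.comp 𝒮.δ := by
    apply FreeGroup.ext_hom
    intro i
    have h2 := 𝒮.two_k hpl
    fin_cases i
    · simp only [swap, MonoidHom.comp_apply, FreeGroup.lift_apply_of, Fin.zero_eta, Fin.isValue,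
        Equiv.swap_apply_left, MulEquiv.toMonoidHom_eq_coe, MonoidHom.coe_coe, MulAut.conj_apply,
        𝒮.ha, 𝒮.hb, hinv, DihedralGroup.sr_mul_sr, DihedralGroup.r_mul_sr]
      congr 1
      linear_combination -h2
    · simp only [swap, MonoidHom.comp_apply, FreeGroup.lift_apply_of, Fin.mk_one, Fin.isValue,
        Equiv.swap_apply_right, MulEquiv.toMonoidHom_eq_coe, MonoidHom.coe_coe, MulAut.conj_apply,
        𝒮.ha, 𝒮.hb, hinv, DihedralGroup.sr_mul_sr, DihedralGroup.r_mul_sr]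
      congr 1
      linear_combination -h2
  have := DFunLike.congr_fun h w
  simp only [MonoidHom.comp_apply, MulEquiv.toMonoidHom_eq_coe, MonoidHom.coe_coe,
    MulAut.conj_apply, hinv] at this
  exact this

/-- the matrix `S` -/
def S [Fact p.Prime] : Matrix (ZMod p) (ZMod p) R := mono 1 (DihedralGroup.sr 𝒮.k)

lemma S_mul_S [Fact p.Prime] : 𝒮.S * 𝒮.S = 1 := by
  unfold S
  rw [mono_mul_mono, one_mul, DihedralGroup.sr_mul_self, mono_one]

lemma ρ_swap [Fact p.Prime] (hpl : p = 2 * l + 1) (w : FreeGroup (Fin 2)) :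
    𝒮.ρ (swap w) = 𝒮.S * 𝒮.ρ w * 𝒮.S := by
  unfold ρ S
  rw [twRep_apply, twRep_apply, mono_mul_mono, mono_mul_mono, 𝒮.δ_swap hpl, 𝒮.χ_swap,
    one_mul, mul_one]

lemma DD_swap [Fact p.Prime] (hpl : p = 2 * l + 1) (w : FreeGroup (Fin 2)) :
    DD 𝒮.ρ 1 (swap w) = 𝒮.S * DD 𝒮.ρ 0 w * 𝒮.S := by
  have hmul : ∀ u v : FreeGroup (Fin 2), DD 𝒮.ρ 1 (swap u) = 𝒮.S * DD 𝒮.ρ 0 u * 𝒮.S →
      DD 𝒮.ρ 1 (swap v) = 𝒮.S * DD 𝒮.ρ 0 v * 𝒮.S →
      DD 𝒮.ρ 1 (swap (u * v)) = 𝒮.S * DD 𝒮.ρ 0 (u * v) * 𝒮.S := by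
    intro u v hu hv
    rw [map_mul, DD_mul, DD_mul, hu, hv, 𝒮.ρ_swap hpl]
    have : 𝒮.S * 𝒮.ρ u * 𝒮.S * (𝒮.S * DD 𝒮.ρ 0 v * 𝒮.S) =
        𝒮.S * 𝒮.ρ u * (𝒮.S * 𝒮.S) * DD 𝒮.ρ 0 v * 𝒮.S := by
      simp only [Matrix.mul_assoc]
    rw [this, S_mul_S]
    noncomm_ring
  have hinv : ∀ u : FreeGroup (Fin 2), DD 𝒮.ρ 1 (swap u) = 𝒮.S * DD 𝒮.ρ 0 u * 𝒮.S →
      DD 𝒮.ρ 1 (swap u⁻¹) = 𝒮.S * DD 𝒮.ρ 0 u⁻¹ * 𝒮.S := by
    intro u hu
    rw [map_inv, DD_inv, hu, DD_inv, ← map_inv swap, 𝒮.ρ_swap hpl]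
    have : 𝒮.S * 𝒮.ρ u⁻¹ * 𝒮.S * (𝒮.S * DD 𝒮.ρ 0 u * 𝒮.S) =
        𝒮.S * 𝒮.ρ u⁻¹ * (𝒮.S * 𝒮.S) * DD 𝒮.ρ 0 u * 𝒮.S := by
      simp only [Matrix.mul_assoc]
    rw [this, S_mul_S]
    noncomm_ring
  have hof : ∀ i : Fin 2, DD 𝒮.ρ 1 (swap (FreeGroup.of i)) =
      𝒮.S * DD 𝒮.ρ 0 (FreeGroup.of i) * 𝒮.S := by
    intro i
    fin_cases i
    · simp [swap, DD_of, S_mul_S]
    · simp [swap, DD_of]
  induction w using FreeGroup.induction_on with
  | C1 => simp [DD_one]
  | of x => exact hof x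
  | inv_of x h => exact hinv _ h
  | mul x y hx hy => exact hmul x y hx hy

lemma deg_eq_one_of_symm (g h : FreeGroup (Fin 2)) (hg : swap g = h⁻¹ * g⁻¹ * h) :
    𝒮.deg g = 1 := by
  have h1 := 𝒮.deg_swap g
  rw [hg] at h1
  simp only [map_mul, map_inv] at h1
  have h2 : (𝒮.deg g).toAdd = 0 := by
    have := congrArg Multiplicative.toAdd h1
    simp only [toAdd_mul, toAdd_inv] at this
    linarith
  rw [← ofAdd_toAdd (𝒮.deg g), h2, ofAdd_zero]

lemma mem_TJ_ρ [NeZero p] (τ : R →+* R) (hτ : τ 𝒮.t = - 𝒮.t) (w : FreeGroup (Fin 2)) :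
    𝒮.ρ w ∈ TJ p τ := by
  have hτi : τ ((𝒮.t⁻¹ : Rˣ) : R) = - ((𝒮.t⁻¹ : Rˣ) : R) := by
    have h1 : τ 𝒮.t * τ ((𝒮.t⁻¹ : Rˣ) : R) = 1 := by rw [← map_mul]; simp
    rw [hτ] at h1
    have h2 : ((𝒮.t⁻¹ : Rˣ) : R) * (- (𝒮.t : R) * τ ((𝒮.t⁻¹ : Rˣ) : R)) = ((𝒮.t⁻¹ : Rˣ) : R) := by
      rw [h1, mul_one]
    have h3 : ((𝒮.t⁻¹ : Rˣ) : R) * (𝒮.t : R) = 1 := by simp
    linear_combination -h2 - τ ((𝒮.t⁻¹ : Rˣ) : R) * h3
  have hof : ∀ i : Fin 2, 𝒮.ρ (FreeGroup.of i) ∈ TJ p τ := by
    intro i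
    rw [mem_TJ]
    fin_cases i
    · show 𝒮.ρ (FreeGroup.of 0) * _ = _ * (𝒮.ρ (FreeGroup.of 0)).map τ
      rw [ρ_x, mono_map, hτ, mono_sr_JJ]
    · show 𝒮.ρ (FreeGroup.of 1) * _ = _ * (𝒮.ρ (FreeGroup.of 1)).map τ
      rw [ρ_y, mono_map, hτ, mono_sr_JJ]
  have hχi : ∀ i : Fin 2, 𝒮.χ (FreeGroup.of i)⁻¹ = ((𝒮.t⁻¹ : Rˣ) : R) := by
    intro i
    rw [χ_apply]
    fin_cases i
    · simp [𝒮.hx]
    · simp [𝒮.hy]
  have hinv : ∀ i : Fin 2, 𝒮.ρ (FreeGroup.of i)⁻¹ ∈ TJ p τ := by
    intro i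
    rw [mem_TJ, ρ, twRep_apply, hχi, map_inv]
    fin_cases i
    · show mono _ (𝒮.δ (FreeGroup.of 0))⁻¹ * _ = _ * (mono _ (𝒮.δ (FreeGroup.of 0))⁻¹).map τ
      rw [𝒮.ha, DihedralGroup.inv_sr, mono_map, hτi, mono_sr_JJ]
    · show mono _ (𝒮.δ (FreeGroup.of 1))⁻¹ * _ = _ * (mono _ (𝒮.δ (FreeGroup.of 1))⁻¹).map τ
      rw [𝒮.hb, DihedralGroup.inv_sr, mono_map, hτi, mono_sr_JJ]
  induction w using FreeGroup.induction_on with
  | C1 => rw [map_one]; exact one_mem _
  | of x => exact hof x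
  | inv_of x h => exact hinv x
  | mul x y hx hy => rw [map_mul]; exact mul_mem hx hy

lemma lift_mem {G : Type*} [Monoid G] {A : Type*} [Ring A] (H : Subring A)
    (ρ : G →* A) (h : ∀ g, ρ g ∈ H) (z : MonoidAlgebra ℤ G) :
    MonoidAlgebra.lift ℤ A G ρ z ∈ H := by
  rw [MonoidAlgebra.lift_apply]
  apply Subring.sum_mem
  intro g _
  exact zsmul_mem (h g) _

lemma lift_row_sum [NeZero p] {G : Type*} [Monoid G] (χ : G →* R) (δ : G →* DihedralGroup p)
    (z : MonoidAlgebra ℤ G) (i : ZMod p) :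
    ∑ j, (MonoidAlgebra.lift ℤ _ G (twRep χ δ) z) i j = MonoidAlgebra.lift ℤ R G χ z := by
  rw [MonoidAlgebra.lift_apply, MonoidAlgebra.lift_apply]
  simp only [Finsupp.sum, Matrix.sum_apply, Matrix.smul_apply]
  rw [Finset.sum_comm]
  apply Finset.sum_congr rfl
  intro g _
  rw [← Finset.smul_sum, twRep_apply, mono_row_sum]

/-- If `d ∣ Q i (j-c) - Q i j` for all `j`, with `c ≠ 0`, all columns are congruent mod `d`. -/
lemma dvd_of_shift [Fact p.Prime] (v : ZMod p → R) (d : R) (c : ZMod p) (hc : c ≠ 0)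
    (h : ∀ j, d ∣ v (j - c) - v j) (i j : ZMod p) : d ∣ v i - v j := by
  have h1 : ∀ (n : ℕ) (j : ZMod p), d ∣ v (j - n * c) - v j := by
    intro n
    induction n with
    | zero => intro j; simp
    | succ n ih =>
      intro j
      have e : v (j - ((n + 1 : ℕ) : ZMod p) * c) - v j =
          (v ((j - n * c) - c) - v (j - n * c)) + (v (j - n * c) - v j) := by
        have : j - ((n + 1 : ℕ) : ZMod p) * c = (j - n * c) - c := by push_cast; ring
        rw [this]; ring
      rw [e]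
      exact dvd_add (h _) (ih j)
  have h2 := h1 ((j - i) / c).val j
  rw [ZMod.natCast_zmod_val, div_mul_cancel₀ _ hc] at h2
  have : j - (j - i) = i := by ring
  rw [this] at h2
  exact h2

/-- determinant of `t ϱ(s) - 1` for a reflection `s` -/
lemma det_sr_sub_one [IsDomain R] [Fact p.Prime] (hpl : p = 2 * l + 1)
    (h2 : ∀ x : R, x + x = 0 → x = 0) (hp0 : (p : R) ≠ 0)
    (τ : R →+* R) (t : R) (hτ : τ t = - t) (c : ZMod p) :
    (mono t (DihedralGroup.sr c) - 1).det = (t - 1) * (1 - t ^ 2) ^ l := by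
  set N : Matrix (ZMod p) (ZMod p) R :=
    (mono t (DihedralGroup.sr c) - 1).submatrix (Equiv.addLeft (c / 2)) (Equiv.addLeft (c / 2))
    with hN
  have hNeq : N = mono t (DihedralGroup.sr 0) - 1 := by
    ext i j
    rw [hN, Matrix.submatrix_apply, Matrix.sub_apply, Matrix.sub_apply, mono_sr_apply,
      mono_sr_apply, Matrix.one_apply, Matrix.one_apply]
    have hc2 : c / 2 + c / 2 = c := by
      rw [← mul_two, div_mul_cancel₀ _ (two_ne_zero' hpl)]
    have e1 : (Equiv.addLeft (c / 2) i = c - Equiv.addLeft (c / 2) j) ↔ (i = 0 - j) := by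
      simp only [Equiv.coe_addLeft]
      constructor
      · intro h
        linear_combination h - hc2
      · intro h
        linear_combination h + hc2
    have e2 : (Equiv.addLeft (c / 2) i = Equiv.addLeft (c / 2) j) ↔ (i = j) := by
      simp
    simp only [e1, e2]
  have hdet : N.det = (mono t (DihedralGroup.sr c) - 1).det := by
    rw [hN, Matrix.det_submatrix_equiv_self]
  rw [← hdet]
  have h1 : ∀ i j, N (-i) (-j) = N i j := by
    intro i j
    rw [hNeq, Matrix.sub_apply, Matrix.sub_apply, mono_sr_apply, mono_sr_apply, Matrix.one_apply,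
      Matrix.one_apply]
    have e1 : (-i = 0 - -j) ↔ (i = 0 - j) := by
      constructor
      · intro h; linear_combination -h
      · intro h; linear_combination -h
    have e2 : (-i = -j) ↔ (i = j) := neg_inj
    simp only [e1, e2]
  have hJ : N * JJ p R = JJ p R * N.map τ := by
    have : N ∈ TJ p τ := by
      rw [hNeq]
      apply sub_mem _ (one_mem _)
      rw [mem_TJ, mono_map, hτ, mono_sr_JJ]
    exact this
  have h3 : ∀ i, ∑ j, N i j = t - 1 := by
    intro i
    rw [hNeq]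
    simp only [Matrix.sub_apply, Finset.sum_sub_distrib, mono_row_sum]
    simp [Matrix.one_apply]
  have hred : redM p l N = Matrix.diagonal (fun _ => - (t + 1)) := by
    ext i j
    unfold redM
    rw [Matrix.of_apply, hNeq, Matrix.sub_apply, Matrix.sub_apply, mono_sr_apply, mono_sr_apply,
      Matrix.one_apply, Matrix.one_apply, zero_sub, zero_sub, neg_neg, Matrix.diagonal_apply]
    have n1 := half_ne_neg hpl i j
    simp only [if_neg n1]
    by_cases hij : i = j
    · subst hij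
      simp
      ring
    · have n2 : half p l i ≠ half p l j := fun h => hij (half_injective hpl h)
      simp only [if_neg n2, if_neg hij]
      ring
  rw [core_det hpl h2 hp0 τ N (t - 1) h1 hJ h3, hred, Matrix.det_diagonal]
  simp only [Finset.prod_const, Finset.card_univ, Fintype.card_fin, map_pow, map_neg, map_add,
    hτ, map_one]
  rw [mul_assoc, ← mul_pow]
  congr 2
  ring

/-- **Core theorem** for the two-generator presentation. -/
theorem core [IsDomain R] [Fact p.Prime] (hpl : p = 2 * l + 1) (𝒮 : Setup p R)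
    (h2 : ∀ x : R, x + x = 0 → x = 0) (hp0 : (p : R) ≠ 0)
    (τ : R →+* R) (hτ : τ 𝒮.t = - 𝒮.t) (ht1 : (𝒮.t : R) - 1 ≠ 0) (ht2 : 1 - (𝒮.t : R) ^ 2 ≠ 0)
    (r g : FreeGroup (Fin 2)) (hg : swap g = g⁻¹) (hr : swap r = g⁻¹ * r⁻¹ * g)
    (hδr : 𝒮.δ r = 1) :
    ∃ (f : R) (s : ℤˣ), (1 - (𝒮.t : R)) * (DD 𝒮.ρ 0 r).det =
      ((s : ℤ) : R) * (MonoidAlgebra.lift ℤ R _ 𝒮.χ (fox 0 r) * f * τ f) *
        (𝒮.ρ (FreeGroup.of 1) - 1).det := by
  set A := DD 𝒮.ρ 0 r with hA
  set B := DD 𝒮.ρ 1 r with hB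
  set X := 𝒮.ρ (FreeGroup.of 0) with hX
  set Y := 𝒮.ρ (FreeGroup.of 1) with hY
  have hdegr : 𝒮.deg r = 1 := by
    apply 𝒮.deg_eq_one_of_symm r g hr
  have hdegg : 𝒮.deg g = 1 := by
    apply 𝒮.deg_eq_one_of_symm g 1
    simpa using hg
  have hχ1 : ∀ w, 𝒮.deg w = 1 → 𝒮.χ w = 1 := by
    intro w hw
    rw [χ_apply, hw]; simp
  have hρr : 𝒮.ρ r = 1 := by
    rw [ρ, twRep_apply, hχ1 r hdegr, hδr, mono_one]
  have hSS := 𝒮.S_mul_S
  have hρinv : ∀ w, 𝒮.ρ w⁻¹ * 𝒮.ρ w = 1 := by
    intro w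
    rw [← map_mul, inv_mul_cancel, map_one]
  have hρrinv : 𝒮.ρ r⁻¹ = 1 := by
    have := hρinv r
    rwa [hρr, mul_one] at this
  -- the symmetry relation
  have hrel1 : 𝒮.S * A * 𝒮.S = - (𝒮.ρ g⁻¹ * B) := by
    rw [hA, ← 𝒮.DD_swap hpl, hr, DD_mul, DD_mul, DD_inv 𝒮.ρ 1 g, DD_inv 𝒮.ρ 1 r, map_mul, hρrinv,
      ← hB]
    noncomm_ring
  have hρginv : 𝒮.ρ g⁻¹ = 𝒮.S * 𝒮.ρ g * 𝒮.S := by
    rw [← hg, 𝒮.ρ_swap hpl]
  obtain ⟨H, hH⟩ : ∃ H, H = 𝒮.ρ g * 𝒮.S := ⟨_, rfl⟩
  have hHH : H * H = 1 := by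
    have : H * H = 𝒮.ρ g * (𝒮.S * 𝒮.ρ g * 𝒮.S) := by
      rw [hH]; simp only [Matrix.mul_assoc]
    rw [this, ← hρginv, ← map_mul, mul_inv_cancel, map_one]
  have hHB : H * B = - (A * 𝒮.S) := by
    have e1 : 𝒮.S * (𝒮.S * A * 𝒮.S) = 𝒮.S * (- (𝒮.ρ g⁻¹ * B)) := by rw [hrel1]
    have e2 : 𝒮.S * (𝒮.S * A * 𝒮.S) = A * 𝒮.S := by
      rw [← Matrix.mul_assoc, ← Matrix.mul_assoc, hSS, Matrix.one_mul]
    have e3 : 𝒮.S * (- (𝒮.ρ g⁻¹ * B)) = - (H * B) := by
      rw [hρginv, hH, Matrix.mul_neg]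
      simp only [← Matrix.mul_assoc]
      rw [hSS, Matrix.one_mul]
    rw [e2, e3] at e1
    rw [e1, neg_neg]
  have hfund : A * (X - 1) + B * (Y - 1) = 0 := by
    have := DD_fundamental 𝒮.ρ r
    rw [Fin.sum_univ_two, hρr, sub_self] at this
    exact this
  have hXS : X * 𝒮.S = 𝒮.S * Y := by
    have e1 : Y = 𝒮.S * X * 𝒮.S := by
      rw [hX, ← 𝒮.ρ_swap hpl]
      simp [swap, hY]
    rw [e1, ← Matrix.mul_assoc, ← Matrix.mul_assoc, hSS, Matrix.one_mul]
  obtain ⟨Q, hQ⟩ : ∃ Q, Q = A * (X - 1) := ⟨_, rfl⟩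
  have hHQS : H * Q * 𝒮.S = Q := by
    have e1 : Q * 𝒮.S = A * 𝒮.S * (Y - 1) := by
      rw [hQ, Matrix.mul_assoc, Matrix.sub_mul, hXS, Matrix.one_mul, Matrix.mul_assoc A 𝒮.S,
        Matrix.mul_sub 𝒮.S, Matrix.mul_one]
    have e2 : A * 𝒮.S = - (H * B) := by rw [hHB, neg_neg]
    rw [Matrix.mul_assoc, e1, e2, Matrix.neg_mul, Matrix.mul_neg, Matrix.mul_assoc H B,
      ← Matrix.mul_assoc H H, hHH, Matrix.one_mul, hQ]
    exact (eq_neg_of_add_eq_zero_left hfund).symm
  -- H is a monomial reflection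
  have hδg : ∃ j, 𝒮.δ g = DihedralGroup.r j := by
    have h := 𝒮.dsgn_δ g
    rw [hdegg, toAdd_one, zpow_zero] at h
    rcases hgd : 𝒮.δ g with j | j
    · exact ⟨j, rfl⟩
    · rw [hgd] at h
      exact absurd h (by simp [dsgn])
  obtain ⟨jg, hjg⟩ := hδg
  set k := 𝒮.k with hk
  set h := k - jg with hh
  have hHmono : H = mono 1 (DihedralGroup.sr h) := by
    rw [hH, ρ, twRep_apply, hχ1 g hdegg, S, hjg, mono_mul_mono, one_mul, DihedralGroup.r_mul_sr]
  have hQsymm : ∀ i j, Q i j = Q (h - i) (k - j) := by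
    intro i j
    have e1 := congrFun (congrFun hHQS i) j
    rw [S, mul_mono, hHmono, mono_mul, DihedralGroup.inv_sr, one_mul, mul_one] at e1
    exact e1.symm
  -- column congruences
  have hXX : X * X = ((𝒮.t : R) ^ 2) • (1 : Matrix (ZMod p) (ZMod p) R) := by
    rw [hX, ρ_x, mono_mul_mono, DihedralGroup.sr_mul_self]
    ext i j
    rw [Matrix.smul_apply, ← mono_one, mono, mono, Matrix.of_apply, Matrix.of_apply]
    split_ifs <;> simp [sq]
  have hYY : Y * Y = ((𝒮.t : R) ^ 2) • (1 : Matrix (ZMod p) (ZMod p) R) := by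
    rw [hY, ρ_y, mono_mul_mono, DihedralGroup.sr_mul_self]
    ext i j
    rw [Matrix.smul_apply, ← mono_one, mono, mono, Matrix.of_apply, Matrix.of_apply]
    split_ifs <;> simp [sq]
  have hQX : Q * X = ((𝒮.t : R) ^ 2 - 1) • A - Q := by
    have e1 : (X - 1) * X = ((𝒮.t : R) ^ 2) • (1 : Matrix (ZMod p) (ZMod p) R) - X := by
      rw [Matrix.sub_mul, hXX, Matrix.one_mul]
    rw [hQ, Matrix.mul_assoc, e1, Matrix.mul_sub, Matrix.mul_sub, Matrix.mul_smul, Matrix.mul_one,
      sub_smul, one_smul]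
    abel
  have hQY : Q * Y = - (((𝒮.t : R) ^ 2 - 1) • B) - Q := by
    have e0 : Q = - (B * (Y - 1)) := by
      rw [hQ]; exact eq_neg_of_add_eq_zero_left hfund
    have e1 : (Y - 1) * Y = ((𝒮.t : R) ^ 2) • (1 : Matrix (ZMod p) (ZMod p) R) - Y := by
      rw [Matrix.sub_mul, hYY, Matrix.one_mul]
    rw [e0, Matrix.neg_mul, Matrix.mul_assoc, e1, Matrix.mul_sub, Matrix.mul_sub, Matrix.mul_smul,
      Matrix.mul_one, sub_smul, one_smul]
    abel
  have hQXY : Q * (X * Y) = ((𝒮.t : R) ^ 2 - 1) • (A * Y + B) + Q := by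
    rw [← Matrix.mul_assoc, hQX, Matrix.sub_mul, hQY, Matrix.smul_mul, smul_add]
    abel
  have hcol : ∀ i j j', ((𝒮.t : R) ^ 2 - 1) ∣ Q i j - Q i j' := by
    intro i j j'
    apply dvd_of_shift (Q i) _ (𝒮.b - 𝒮.a) (sub_ne_zero.mpr (Ne.symm 𝒮.hab))
    intro j
    have e1 := congrFun (congrFun hQXY i) j
    rw [hX, hY, ρ_x, ρ_y, mono_mul_mono, DihedralGroup.sr_mul_sr, mul_mono] at e1
    simp only [Matrix.add_apply, Matrix.smul_apply, smul_eq_mul] at e1
    have e2 : dihAct (DihedralGroup.r (𝒮.b - 𝒮.a)) j = j - (𝒮.b - 𝒮.a) := rfl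
    rw [e2] at e1
    refine ⟨((A * 𝒮.ρ (FreeGroup.of 1)) i j + B i j) - Q i (j - (𝒮.b - 𝒮.a)), ?_⟩
    rw [ρ_y]
    linear_combination e1
  -- the recentred matrix
  have hh2 : h / 2 + h / 2 = h := by
    rw [← mul_two, div_mul_cancel₀ _ (two_ne_zero' hpl)]
  have hk2 : k / 2 + k / 2 = k := by
    rw [← mul_two, div_mul_cancel₀ _ (two_ne_zero' hpl)]
  obtain ⟨N, hN⟩ : ∃ N : Matrix (ZMod p) (ZMod p) R,
    N = Q.submatrix (Equiv.addLeft (h / 2)) (Equiv.addLeft (k / 2)) := ⟨_, rfl⟩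
  have hNapp : ∀ i j, N i j = Q (h / 2 + i) (k / 2 + j) := by
    intro i j; rw [hN]; rfl
  have hN1 : ∀ i j, N (-i) (-j) = N i j := by
    intro i j
    rw [hNapp, hNapp, hQsymm]
    congr 1
    · linear_combination -hh2
    · linear_combination -hk2
  have hQJ : Q * JJ p R = JJ p R * Q.map τ := by
    have : Q ∈ TJ p τ := by
      rw [hQ]
      apply mul_mem
      · exact lift_mem _ _ (fun w => 𝒮.mem_TJ_ρ τ hτ w) _
      · exact sub_mem (𝒮.mem_TJ_ρ τ hτ _) (one_mem _)
    exact this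
  have hNJ : N * JJ p R = JJ p R * N.map τ := by
    ext i j
    have e1 := congrFun (congrFun hQJ (h / 2 + i)) (k / 2 + j)
    rw [mul_JJ, JJ_mul] at e1
    rw [mul_JJ, JJ_mul, hNapp, hNapp, Matrix.map_apply, Matrix.map_apply, hNapp, hNapp]
    rw [Matrix.map_apply, Matrix.map_apply] at e1
    have a1 : k / 2 + (j + 1) = k / 2 + j + 1 := by ring
    have a2 : k / 2 + (j - 1) = k / 2 + j - 1 := by ring
    have a3 : h / 2 + (i - 1) = h / 2 + i - 1 := by ring
    have a4 : h / 2 + (i + 1) = h / 2 + i + 1 := by ring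
    rw [a1, a2, a3, a4]
    exact e1
  set Δ := MonoidAlgebra.lift ℤ R _ 𝒮.χ (fox 0 r) with hΔ
  have hQrow : ∀ i, ∑ j, Q i j = Δ * ((𝒮.t : R) - 1) := by
    intro i
    rw [hQ]
    simp only [Matrix.mul_apply]
    rw [Finset.sum_comm]
    have e1 : ∀ m, ∑ j, A i m * (X - 1) m j = A i m * ((𝒮.t : R) - 1) := by
      intro m
      rw [← Finset.mul_sum]
      congr 1
      simp only [Matrix.sub_apply, Finset.sum_sub_distrib, hX, ρ_x, mono_row_sum]
      simp [Matrix.one_apply]
    rw [Finset.sum_congr rfl (fun m _ => e1 m), ← Finset.sum_mul]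
    congr 1
    exact lift_row_sum 𝒮.χ 𝒮.δ (fox 0 r) i
  have hNrow : ∀ i, ∑ j, N i j = Δ * ((𝒮.t : R) - 1) := by
    intro i
    rw [← hQrow (h / 2 + i), ← Equiv.sum_comp (Equiv.addLeft (k / 2)) (fun j => Q (h / 2 + i) j)]
    exact Finset.sum_congr rfl (fun j _ => hNapp i j)
  have hcore := core_det hpl h2 hp0 τ N _ hN1 hNJ hNrow
  -- divisibility
  have hdiv : ∀ i j : Fin l, ∃ m, redM p l N i j = ((𝒮.t : R) ^ 2 - 1) * m := by
    intro i j
    have := hcol (h / 2 + half p l i) (k / 2 + half p l j) (k / 2 + - half p l j)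
    obtain ⟨m, hm⟩ := this
    refine ⟨m, ?_⟩
    rw [← hm]
    unfold redM
    rw [Matrix.of_apply, hNapp, hNapp]
  choose mf hmf using hdiv
  have hred : redM p l N = ((𝒮.t : R) ^ 2 - 1) • (Matrix.of mf) := by
    ext i j
    rw [hmf, Matrix.smul_apply, Matrix.of_apply, smul_eq_mul]
  obtain ⟨f, hf⟩ : ∃ f, f = (Matrix.of mf).det := ⟨_, rfl⟩
  have hdetred : (redM p l N).det = ((𝒮.t : R) ^ 2 - 1) ^ l * f := by
    rw [hred, Matrix.det_smul, Fintype.card_fin, hf]
  have hτd : τ ((redM p l N).det) = ((𝒮.t : R) ^ 2 - 1) ^ l * τ f := by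
    rw [hdetred, map_mul, map_pow, map_sub, map_pow, hτ, map_one]
    ring
  have hdetX : (X - 1).det = ((𝒮.t : R) - 1) * (1 - (𝒮.t : R) ^ 2) ^ l := by
    rw [hX, ρ_x]
    exact det_sr_sub_one hpl h2 hp0 τ _ hτ _
  have hdetY : (Y - 1).det = ((𝒮.t : R) - 1) * (1 - (𝒮.t : R) ^ 2) ^ l := by
    rw [hY, ρ_y]
    exact det_sr_sub_one hpl h2 hp0 τ _ hτ _
  have hdetQ : Q.det = A.det * (X - 1).det := by rw [hQ, Matrix.det_mul]
  have hdetN : N.det = ((Equiv.Perm.sign (Equiv.addLeft (h / 2)) *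
      Equiv.Perm.sign (Equiv.addLeft (k / 2)) : ℤˣ) : ℤ) * Q.det := by
    rw [hN]; exact det_submatrix_perm Q _ _
  obtain ⟨s, hs⟩ : ∃ s : ℤˣ, s = Equiv.Perm.sign (Equiv.addLeft (h / 2)) *
      Equiv.Perm.sign (Equiv.addLeft (k / 2)) := ⟨_, rfl⟩
  rw [← hs] at hdetN
  refine ⟨f, -s, ?_⟩
  have hss : ((s : ℤ) : R) * ((s : ℤ) : R) = 1 := by
    rw [← Int.cast_mul, ← Units.val_mul, Int.units_mul_self]; simp
  have hpow : (((𝒮.t : R) ^ 2 - 1) ^ l) * (((𝒮.t : R) ^ 2 - 1) ^ l) =
      (1 - (𝒮.t : R) ^ 2) ^ l * (1 - (𝒮.t : R) ^ 2) ^ l := by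
    rw [← mul_pow, ← mul_pow]
    congr 1
    ring
  have hne : (1 - (𝒮.t : R) ^ 2) ^ l ≠ 0 := pow_ne_zero _ ht2
  have hmain : A.det = ((s : ℤ) : R) * (Δ * f * τ f) * (1 - (𝒮.t : R) ^ 2) ^ l := by
    apply mul_right_cancel₀ (mul_ne_zero ht1 hne)
    have e1 : A.det * (((𝒮.t : R) - 1) * (1 - (𝒮.t : R) ^ 2) ^ l) =
        ((s : ℤ) : R) * (((s : ℤ) : R) * Q.det) := by
      rw [← mul_assoc ((s : ℤ) : R), hss, one_mul, hdetQ, hdetX]
    rw [e1, ← hdetN, hcore, hτd, hdetred]
    linear_combination ((s : ℤ) : R) * Δ * ((𝒮.t : R) - 1) * f * τ f * hpow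
  rw [hmain, hdetY]
  push_cast
  ring

end Setup
end core
end CoreSec

/-! ## Invariance of Wada's polynomial -/

section WadaSec

open Matrix


section

variable {X I ι R : Type*} [DecidableEq X] [Fintype X] [DecidableEq I] [Fintype I]
  [DecidableEq ι] [Fintype ι] [CommRing R]

omit [DecidableEq X] [Fintype X] in
/-- two crossed homomorphisms agreeing on the generators are equal -/
lemma crossed_ext (ρ : FreeGroup X →* Matrix ι ι R) (D D' : FreeGroup X → Matrix ι ι R)
    (hD : ∀ u v, D (u * v) = D u + ρ u * D v) (hD' : ∀ u v, D' (u * v) = D' u + ρ u * D' v)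
    (h : ∀ i, D (FreeGroup.of i) = D' (FreeGroup.of i)) (w : FreeGroup X) : D w = D' w := by
  have h1 : D 1 = 0 := by
    have := hD 1 1
    rw [mul_one, map_one, one_mul] at this
    simpa using this
  have h1' : D' 1 = 0 := by
    have := hD' 1 1
    rw [mul_one, map_one, one_mul] at this
    simpa using this
  have hinv : ∀ u, D u = D' u → D u⁻¹ = D' u⁻¹ := by
    intro u hu
    have e1 := hD u⁻¹ u
    have e2 := hD' u⁻¹ u
    rw [inv_mul_cancel, h1] at e1
    rw [inv_mul_cancel, h1'] at e2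
    rw [eq_neg_of_add_eq_zero_left e1.symm, eq_neg_of_add_eq_zero_left e2.symm, hu]
  induction w using FreeGroup.induction_on with
  | C1 => rw [h1, h1']
  | of x => exact h x
  | inv_of x _ => exact hinv _ (h x)
  | mul x y hx hy => rw [hD, hD', hx, hy]

/-- square part of the Fox matrix with block columns `f` -/
noncomputable def mnr (ρ : FreeGroup X →* Matrix ι ι R) (rel : I → FreeGroup X) (f : I → X) :
    Matrix (I × ι) (I × ι) R :=
  Matrix.of fun x y => DD ρ (f y.1) (rel x.1) x.2 y.2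

/-- the index bijection attached to an adapted pair `(f, j)` -/
noncomputable def idx (f : I → X) (j : X)
    (hf : Function.Bijective (fun o : Option I => o.elim j f)) : (I × ι) ⊕ ι ≃ X × ι :=
  Equiv.ofBijective (Sum.elim (fun x => (f x.1, x.2)) (fun a => (j, a))) (by
    have hinj : ∀ i i', f i = f i' → i = i' := by
      intro i i' h
      have := hf.1 (show (fun o : Option I => o.elim j f) (some i) =
        (fun o : Option I => o.elim j f) (some i') from h)
      exact Option.some.inj this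
    have hne : ∀ i, f i ≠ j := by
      intro i h
      have := hf.1 (show (fun o : Option I => o.elim j f) (some i) =
        (fun o : Option I => o.elim j f) none from h)
      exact absurd this (by simp)
    constructor
    · rintro (⟨i, a⟩ | a) (⟨i', a'⟩ | a') h
      · simp only [Sum.elim_inl, Prod.mk.injEq] at h
        rw [hinj _ _ h.1, h.2]
      · simp only [Sum.elim_inl, Sum.elim_inr, Prod.mk.injEq] at h
        exact absurd h.1 (hne i)
      · simp only [Sum.elim_inl, Sum.elim_inr, Prod.mk.injEq] at h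
        exact absurd h.1.symm (hne i')
      · simp only [Sum.elim_inr, Prod.mk.injEq] at h
        rw [h.2]
    · rintro ⟨x, a⟩
      obtain ⟨o, ho⟩ := hf.2 x
      rcases o with _ | i
      · exact ⟨Sum.inr a, by simpa using ho⟩
      · exact ⟨Sum.inl (i, a), by simpa using ho⟩)

lemma idx_inl (f : I → X) (j : X)
    (hf : Function.Bijective (fun o : Option I => o.elim j f)) (x : I × ι) :
    idx f j hf (Sum.inl x) = (f x.1, x.2) := rfl

lemma idx_inr (f : I → X) (j : X)
    (hf : Function.Bijective (fun o : Option I => o.elim j f)) (a : ι) :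
    idx f j hf (Sum.inr a) = (j, a) := rfl

lemma adapted_ne {f : I → X} {j : X}
    (hf : Function.Bijective (fun o : Option I => o.elim j f)) (i : I) : f i ≠ j := by
  intro h
  have := hf.1 (show (fun o : Option I => o.elim j f) (some i) =
    (fun o : Option I => o.elim j f) none from h)
  exact absurd this (by simp)

lemma adapted_inj {f : I → X} {j : X}
    (hf : Function.Bijective (fun o : Option I => o.elim j f)) : Function.Injective f := by
  intro i i' h
  have := hf.1 (show (fun o : Option I => o.elim j f) (some i) =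
    (fun o : Option I => o.elim j f) (some i') from h)
  exact Option.some.inj this

/-- Exchange of the deleted column. -/
theorem exchange (ρ : FreeGroup X →* Matrix ι ι R) (rel : I → FreeGroup X)
    (hrel : ∀ i, ρ (rel i) = 1) (f f' : I → X) (j j' : X)
    (hf : Function.Bijective (fun o : Option I => o.elim j f))
    (hf' : Function.Bijective (fun o : Option I => o.elim j' f')) :
    ∃ s : ℤˣ, (mnr ρ rel f).det * (ρ (FreeGroup.of j') - 1).det =
      ((s : ℤ) : R) * ((mnr ρ rel f').det * (ρ (FreeGroup.of j) - 1).det) := by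
  -- the full Fox matrix and the augmentation column
  set D : Matrix (I × ι) (X × ι) R := Matrix.of fun x y => DD ρ y.1 (rel x.1) x.2 y.2 with hD
  set c : Matrix (X × ι) ι R := Matrix.of fun x b => (ρ (FreeGroup.of x.1) - 1) x.2 b with hc
  have hDc : D * c = 0 := by
    ext x b
    rw [Matrix.mul_apply, Fintype.sum_prod_type]
    have := congrFun (congrFun (DD_fundamental ρ (rel x.1)) x.2) b
    rw [hrel, sub_self, Matrix.sum_apply] at this
    simp only [Matrix.mul_apply] at this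
    simpa [hD, hc] using this
  have key : ∀ (f : I → X) (j : X) (hf : Function.Bijective (fun o : Option I => o.elim j f))
      (s : Matrix ι (X × ι) R),
      ((fromRows D s).submatrix id (idx f j hf)).det * (ρ (FreeGroup.of j) - 1).det =
        (mnr ρ rel f).det * (s * c).det := by
    intro f j hf s
    set C1 : Matrix (X × ι) (I × ι) R :=
      Matrix.of fun x y => if x = (f y.1, y.2) then 1 else 0 with hC1
    have hDC1 : D * C1 = mnr ρ rel f := by
      ext x y
      simp [Matrix.mul_apply, hC1, hD, mnr]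
    have h1 : (fromCols C1 c).submatrix (idx f j hf) id =
        fromBlocks 1 (Matrix.of fun x b => c (f x.1, x.2) b) 0 (ρ (FreeGroup.of j) - 1) := by
      ext x y
      rcases x with x | a <;> rcases y with y | b
      · simp only [Matrix.submatrix_apply, id, fromCols_apply_inl, fromBlocks_apply₁₁, hC1,
          Matrix.of_apply, idx_inl, Matrix.one_apply]
        apply if_congr _ rfl rfl
        constructor
        · intro h
          rw [Prod.mk.injEq] at h
          exact Prod.ext (adapted_inj hf h.1) h.2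
        · intro h; rw [h]
      · simp only [Matrix.submatrix_apply, id, fromCols_apply_inr, fromBlocks_apply₁₂,
          Matrix.of_apply, idx_inl]
      · simp only [Matrix.submatrix_apply, id, fromCols_apply_inl, fromBlocks_apply₂₁, hC1,
          Matrix.of_apply, idx_inr, Matrix.zero_apply]
        rw [if_neg]
        intro h
        rw [Prod.mk.injEq] at h
        exact adapted_ne hf y.1 h.1.symm
      · simp only [Matrix.submatrix_apply, id, fromCols_apply_inr, fromBlocks_apply₂₂, hc,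
          Matrix.of_apply, idx_inr]
    have h2 : ((fromCols C1 c).submatrix (idx f j hf) id).det = (ρ (FreeGroup.of j) - 1).det := by
      rw [h1, Matrix.det_fromBlocks_zero₂₁, Matrix.det_one, one_mul]
    rw [← h2, ← Matrix.det_mul]
    have h3 : (fromRows D s).submatrix id (idx f j hf) * (fromCols C1 c).submatrix (idx f j hf) id =
        fromRows D s * fromCols C1 c := by
      rw [Matrix.submatrix_mul_equiv]
      rfl
    rw [h3, Matrix.fromRows_mul_fromCols, hDc, hDC1, Matrix.det_fromBlocks_zero₁₂]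
  -- unit rows
  set E : Matrix ι (X × ι) R := Matrix.of fun a y => if y = (j', a) then 1 else 0 with hE
  have hEc : E * c = ρ (FreeGroup.of j') - 1 := by
    ext a b
    simp [Matrix.mul_apply, hE, hc]
  have h4 : ((fromRows D E).submatrix id (idx f' j' hf')).det = (mnr ρ rel f').det := by
    have h5 : (fromRows D E).submatrix id (idx f' j' hf') =
        fromBlocks (mnr ρ rel f') (Matrix.of fun x b => D x (j', b)) 0 1 := by
      ext x y
      rcases x with x | a <;> rcases y with y | b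
      · simp only [Matrix.submatrix_apply, id, fromRows_apply_inl, fromBlocks_apply₁₁, hD, mnr,
          Matrix.of_apply, idx_inl]
      · simp only [Matrix.submatrix_apply, id, fromRows_apply_inl, fromBlocks_apply₁₂,
          Matrix.of_apply, idx_inr]
      · simp only [Matrix.submatrix_apply, id, fromRows_apply_inr, fromBlocks_apply₂₁, hE,
          Matrix.of_apply, idx_inl, Matrix.zero_apply]
        rw [if_neg]
        intro h
        rw [Prod.mk.injEq] at h
        exact adapted_ne hf' y.1 h.1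
      · simp only [Matrix.submatrix_apply, id, fromRows_apply_inr, fromBlocks_apply₂₂, hE,
          Matrix.of_apply, idx_inr, Matrix.one_apply]
        apply if_congr _ rfl rfl
        simp [eq_comm]
    rw [h5, Matrix.det_fromBlocks_zero₂₁, Matrix.det_one, mul_one]
  have h6 := key f j hf E
  rw [hEc] at h6
  -- compare the two index bijections
  set σ : Equiv.Perm ((I × ι) ⊕ ι) := (idx f j hf).trans (idx f' j' hf').symm with hσ
  have h7 : (fromRows D E).submatrix id (idx f j hf) =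
      ((fromRows D E).submatrix id (idx f' j' hf')).submatrix id σ := by
    ext x y
    simp [hσ]
  have h8 : ((fromRows D E).submatrix id (idx f j hf)).det =
      ((Equiv.Perm.sign σ : ℤˣ) : ℤ) * (mnr ρ rel f').det := by
    rw [h7, Matrix.det_permute', h4]
  refine ⟨Equiv.Perm.sign σ, ?_⟩
  rw [← h6, h8]
  ring

/-- Change of relators. -/
lemma change_rel (ρ : FreeGroup X →* Matrix ι ι R) (rel rel' : I → FreeGroup X)
    (hrel : ∀ i, ρ (rel i) = 1)
    (h : ∀ i, rel' i ∈ Subgroup.normalClosure (Set.range rel)) :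
    ∃ U : Matrix (I × ι) (I × ι) R, ∀ f : I → X, mnr ρ rel' f = U * mnr ρ rel f := by
  have h1 : ∀ i, ∃ C : I → Matrix ι ι R, ∀ j, DD ρ j (rel' i) = ∑ k, C k * DD ρ j (rel k) :=
    fun i => (DD_normalClosure ρ rel hrel _ (h i)).2
  choose C hC using h1
  refine ⟨Matrix.of fun x y => C x.1 y.1 x.2 y.2, fun f => ?_⟩
  ext x y
  rw [Matrix.mul_apply, Fintype.sum_prod_type]
  simp only [mnr, Matrix.of_apply]
  rw [hC, Matrix.sum_apply]
  simp only [Matrix.mul_apply]

/-- Relators that kill enough generate the whole kernel. -/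
lemma ker_le_of {X₁ X₃ G : Type*} [Group G] (π₁ : FreeGroup X₁ →* G)
    (hπ₁ : Function.Surjective π₁) {I₁ : Type*} (rel₁ : I₁ → FreeGroup X₁)
    (hker : π₁.ker = Subgroup.normalClosure (Set.range rel₁))
    (π₃ : FreeGroup X₃ →* G) (α : X₁ → X₃)
    (N : Subgroup (FreeGroup X₃)) [N.Normal]
    (h1 : ∀ i, FreeGroup.map α (rel₁ i) ∈ N)
    (h2 : ∀ x, ∃ w, π₁ w = π₃ (FreeGroup.of x) ∧ FreeGroup.map α w * (FreeGroup.of x)⁻¹ ∈ N) :
    π₃.ker ≤ N := by
  have hle : π₁.ker ≤ ((QuotientGroup.mk' N).comp (FreeGroup.map α)).ker := by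
    rw [hker]
    apply Subgroup.normalClosure_le_normal
    rintro _ ⟨i, rfl⟩
    rw [SetLike.mem_coe, MonoidHom.mem_ker, MonoidHom.comp_apply, QuotientGroup.mk'_apply,
      QuotientGroup.eq_one_iff]
    exact h1 i
  set κ : G →* FreeGroup X₃ ⧸ N := MonoidHom.liftOfSurjective π₁ hπ₁ ⟨_, hle⟩ with hκ
  have hκπ : ∀ w, κ (π₁ w) = QuotientGroup.mk' N (FreeGroup.map α w) := by
    intro w
    have := MonoidHom.liftOfRightInverse_comp_apply π₁ _ (Function.rightInverse_surjInv hπ₁)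
      ⟨_, hle⟩ w
    exact this
  have hcomp : κ.comp π₃ = QuotientGroup.mk' N := by
    apply FreeGroup.ext_hom
    intro x
    obtain ⟨w, hw1, hw2⟩ := h2 x
    rw [MonoidHom.comp_apply, ← hw1, hκπ]
    have h3 : QuotientGroup.mk' N (FreeGroup.map α w * (FreeGroup.of x)⁻¹) = 1 := by
      rw [QuotientGroup.mk'_apply, QuotientGroup.eq_one_iff]
      exact hw2
    rw [map_mul, map_inv, mul_inv_eq_one] at h3
    exact h3
  intro z hz
  have h4 : κ (π₃ z) = QuotientGroup.mk' N z := DFunLike.congr_fun hcomp z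
  rw [MonoidHom.mem_ker.mp hz, map_one] at h4
  exact (QuotientGroup.eq_one_iff z).mp h4.symm

lemma DD_map_inj {X₁ X₃ : Type*} [DecidableEq X₁] [DecidableEq X₃]
    (ρ₁ : FreeGroup X₁ →* Matrix ι ι R) (ρ₃ : FreeGroup X₃ →* Matrix ι ι R) (α : X₁ → X₃)
    (hα : Function.Injective α) (hρ : ∀ w, ρ₃ (FreeGroup.map α w) = ρ₁ w) (j : X₁)
    (w : FreeGroup X₁) : DD ρ₃ (α j) (FreeGroup.map α w) = DD ρ₁ j w := by
  apply crossed_ext ρ₁ (fun w => DD ρ₃ (α j) (FreeGroup.map α w)) (fun w => DD ρ₁ j w)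
  · intro u v
    rw [map_mul, DD_mul, hρ]
  · intro u v
    rw [DD_mul]
  · intro i
    rw [FreeGroup.map.of, DD_of, DD_of]
    simp only [hα.eq_iff]

lemma DD_map_zero {X₁ X₃ : Type*} [DecidableEq X₁] [DecidableEq X₃]
    (ρ₁ : FreeGroup X₁ →* Matrix ι ι R) (ρ₃ : FreeGroup X₃ →* Matrix ι ι R) (α : X₁ → X₃)
    (hρ : ∀ w, ρ₃ (FreeGroup.map α w) = ρ₁ w) (k : X₃) (hk : ∀ x, α x ≠ k)
    (w : FreeGroup X₁) : DD ρ₃ k (FreeGroup.map α w) = 0 := by
  apply crossed_ext ρ₁ (fun w => DD ρ₃ k (FreeGroup.map α w)) (fun _ => 0)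
  · intro u v
    rw [map_mul, DD_mul, hρ]
  · intro u v
    simp
  · intro i
    rw [FreeGroup.map.of, DD_of, if_neg (hk i)]

/-- Adding generators `β k` with relators `u_k β_k⁻¹` changes the minor by a sign. -/
lemma stabilize {X₁ X₃ K I₁ : Type*} [DecidableEq X₁] [DecidableEq X₃] [DecidableEq K] [Fintype K]
    [DecidableEq I₁] [Fintype I₁]
    (ρ₁ : FreeGroup X₁ →* Matrix ι ι R) (ρ₃ : FreeGroup X₃ →* Matrix ι ι R) (α : X₁ → X₃)
    (β : K → X₃) (hα : Function.Injective α) (hβ : Function.Injective β)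
    (hαβ : ∀ x k, α x ≠ β k) (hρ : ∀ w, ρ₃ (FreeGroup.map α w) = ρ₁ w)
    (rel₁ : I₁ → FreeGroup X₁) (u : K → FreeGroup X₁) (rel : I₁ ⊕ K → FreeGroup X₃)
    (hrel1 : ∀ i, rel (Sum.inl i) = FreeGroup.map α (rel₁ i))
    (hrel2 : ∀ k, rel (Sum.inr k) = FreeGroup.map α (u k) * (FreeGroup.of (β k))⁻¹)
    (hone : ∀ k, ρ₃ (rel (Sum.inr k)) = 1) (f₁ : I₁ → X₁) :
    ∃ s : ℤˣ, (mnr ρ₃ rel (Sum.elim (α ∘ f₁) β)).det = ((s : ℤ) : R) * (mnr ρ₁ rel₁ f₁).det := by
  have h1 : (mnr ρ₃ rel (Sum.elim (α ∘ f₁) β)).submatrix (Equiv.sumProdDistrib I₁ K ι).symm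
      (Equiv.sumProdDistrib I₁ K ι).symm =
      fromBlocks (mnr ρ₁ rel₁ f₁) 0
        (Matrix.of fun x y => DD ρ₃ (α (f₁ y.1)) (rel (Sum.inr x.1)) x.2 y.2) (-1) := by
    ext x y
    rcases x with ⟨i, a⟩ | ⟨k, a⟩ <;> rcases y with ⟨j, b⟩ | ⟨k', b⟩
    · simp only [Matrix.submatrix_apply, Equiv.sumProdDistrib_symm_apply_left,
        fromBlocks_apply₁₁, mnr, Matrix.of_apply, Sum.elim_inl, Function.comp_apply]
      rw [hrel1, DD_map_inj ρ₁ ρ₃ α hα hρ]
    · simp only [Matrix.submatrix_apply, Equiv.sumProdDistrib_symm_apply_left,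
        Equiv.sumProdDistrib_symm_apply_right,
        fromBlocks_apply₁₂, mnr, Matrix.of_apply, Sum.elim_inr, Matrix.zero_apply]
      rw [hrel1, DD_map_zero ρ₁ ρ₃ α hρ _ (fun x => hαβ x k')]
      rfl
    · simp only [Matrix.submatrix_apply, Equiv.sumProdDistrib_symm_apply_left,
        Equiv.sumProdDistrib_symm_apply_right,
        fromBlocks_apply₂₁, mnr, Matrix.of_apply, Sum.elim_inl, Function.comp_apply]
    · simp only [Matrix.submatrix_apply,
        Equiv.sumProdDistrib_symm_apply_right,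
        fromBlocks_apply₂₂, mnr, Matrix.of_apply, Sum.elim_inr, Matrix.neg_apply]
      have h2 : DD ρ₃ (β k') (rel (Sum.inr k)) = - (if k = k' then 1 else 0) := by
        have h3 := hone k
        rw [hrel2, map_mul] at h3
        rw [hrel2, DD_mul, DD_map_zero ρ₁ ρ₃ α hρ _ (fun x => hαβ x k'), DD_inv, zero_add,
          mul_neg, ← mul_assoc, h3, one_mul, DD_of]
        simp only [hβ.eq_iff]
      rw [h2, Matrix.neg_apply]
      congr 1
      rw [Matrix.one_apply]
      by_cases hk : k = k'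
      · subst hk
        simp [Matrix.one_apply]
      · rw [if_neg hk, if_neg (fun h => hk (Prod.mk.inj h).1)]
        rfl
  refine ⟨(-1) ^ (Fintype.card (K × ι)), ?_⟩
  rw [← Matrix.det_submatrix_equiv_self (Equiv.sumProdDistrib I₁ K ι).symm, h1,
    Matrix.det_fromBlocks_zero₁₂, Matrix.det_neg, Matrix.det_one]
  push_cast
  ring

/-- reindexing of relators -/
lemma mnr_reindex {I' : Type*} [DecidableEq I'] [Fintype I']
    (ρ : FreeGroup X →* Matrix ι ι R) (rel : I' → FreeGroup X) (f : I' → X) (q : I ≃ I') :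
    (mnr ρ (rel ∘ q) (f ∘ q)).det = (mnr ρ rel f).det := by
  have : mnr ρ (rel ∘ q) (f ∘ q) = (mnr ρ rel f).submatrix (q.prodCongr (Equiv.refl ι))
      (q.prodCongr (Equiv.refl ι)) := by
    ext x y; rfl
  rw [this, Matrix.det_submatrix_equiv_self]

/-- **Wada's invariance theorem** for deficiency one presentations. -/
theorem wada_invariance [IsDomain R] {G X₁ X₂ I₁ I₂ : Type*} [Group G]
    [Fintype X₁] [DecidableEq X₁] [Fintype X₂] [DecidableEq X₂]
    [Fintype I₁] [DecidableEq I₁] [Fintype I₂] [DecidableEq I₂]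
    (Φ : G →* Matrix ι ι R)
    (π₁ : FreeGroup X₁ →* G) (hπ₁ : Function.Surjective π₁) (rel₁ : I₁ → FreeGroup X₁)
    (hker₁ : π₁.ker = Subgroup.normalClosure (Set.range rel₁))
    (π₂ : FreeGroup X₂ →* G) (hπ₂ : Function.Surjective π₂) (rel₂ : I₂ → FreeGroup X₂)
    (hker₂ : π₂.ker = Subgroup.normalClosure (Set.range rel₂))
    (f₁ : I₁ → X₁) (j₁ : X₁) (hf₁ : Function.Bijective (fun o : Option I₁ => o.elim j₁ f₁))
    (f₂ : I₂ → X₂) (j₂ : X₂) (hf₂ : Function.Bijective (fun o : Option I₂ => o.elim j₂ f₂)) :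
    ∃ u : Rˣ, (mnr (Φ.comp π₁) rel₁ f₁).det * (Φ (π₂ (FreeGroup.of j₂)) - 1).det =
      u * ((mnr (Φ.comp π₂) rel₂ f₂).det * (Φ (π₁ (FreeGroup.of j₁)) - 1).det) := by
  -- the common presentation
  set π₃ : FreeGroup (X₁ ⊕ X₂) →* G :=
    FreeGroup.lift (Sum.elim (fun x => π₁ (FreeGroup.of x)) (fun x => π₂ (FreeGroup.of x))) with hπ₃
  have h31 : ∀ w, π₃ (FreeGroup.map Sum.inl w) = π₁ w := by
    intro w
    have : π₃.comp (FreeGroup.map Sum.inl) = π₁ := by
      apply FreeGroup.ext_hom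
      intro x
      simp [hπ₃]
    exact DFunLike.congr_fun this w
  have h32 : ∀ w, π₃ (FreeGroup.map Sum.inr w) = π₂ w := by
    intro w
    have : π₃.comp (FreeGroup.map Sum.inr) = π₂ := by
      apply FreeGroup.ext_hom
      intro x
      simp [hπ₃]
    exact DFunLike.congr_fun this w
  have h3inl : ∀ x, π₃ (FreeGroup.of (Sum.inl x)) = π₁ (FreeGroup.of x) := by
    intro x; simp [hπ₃]
  have h3inr : ∀ x, π₃ (FreeGroup.of (Sum.inr x)) = π₂ (FreeGroup.of x) := by
    intro x; simp [hπ₃]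
  have hu : ∀ k : X₂, ∃ w, π₁ w = π₂ (FreeGroup.of k) := fun k => hπ₁ _
  choose u hu using hu
  have hv : ∀ k : X₁, ∃ w, π₂ w = π₁ (FreeGroup.of k) := fun k => hπ₂ _
  choose v hv using hv
  set rel₃ : I₁ ⊕ X₂ → FreeGroup (X₁ ⊕ X₂) :=
    Sum.elim (fun i => FreeGroup.map Sum.inl (rel₁ i))
      (fun k => FreeGroup.map Sum.inl (u k) * (FreeGroup.of (Sum.inr k))⁻¹) with hrel₃
  set rel₄ : I₂ ⊕ X₁ → FreeGroup (X₁ ⊕ X₂) :=
    Sum.elim (fun i => FreeGroup.map Sum.inr (rel₂ i))
      (fun k => FreeGroup.map Sum.inr (v k) * (FreeGroup.of (Sum.inl k))⁻¹) with hrel₄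
  have hr1 : ∀ i, π₁ (rel₁ i) = 1 := by
    intro i
    rw [← MonoidHom.mem_ker, hker₁]
    exact Subgroup.subset_normalClosure ⟨i, rfl⟩
  have hr2 : ∀ i, π₂ (rel₂ i) = 1 := by
    intro i
    rw [← MonoidHom.mem_ker, hker₂]
    exact Subgroup.subset_normalClosure ⟨i, rfl⟩
  have hr3 : ∀ i, π₃ (rel₃ i) = 1 := by
    rintro (i | k)
    · simp only [hrel₃, Sum.elim_inl]
      rw [h31, hr1]
    · simp only [hrel₃, Sum.elim_inr]
      rw [map_mul, h31, map_inv, h3inr, hu, mul_inv_cancel]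
  have hr4 : ∀ i, π₃ (rel₄ i) = 1 := by
    rintro (i | k)
    · simp only [hrel₄, Sum.elim_inl]
      rw [h32, hr2]
    · simp only [hrel₄, Sum.elim_inr]
      rw [map_mul, h32, map_inv, h3inl, hv, mul_inv_cancel]
  have hk3 : π₃.ker ≤ Subgroup.normalClosure (Set.range rel₃) := by
    apply ker_le_of π₁ hπ₁ rel₁ hker₁ π₃ Sum.inl
    · intro i
      exact Subgroup.subset_normalClosure ⟨Sum.inl i, rfl⟩
    · rintro (x | k)
      · refine ⟨FreeGroup.of x, (h3inl x).symm, ?_⟩
        rw [FreeGroup.map.of, mul_inv_cancel]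
        exact one_mem _
      · refine ⟨u k, ?_, ?_⟩
        · rw [hu, h3inr]
        · exact Subgroup.subset_normalClosure ⟨Sum.inr k, rfl⟩
  have hk4 : π₃.ker ≤ Subgroup.normalClosure (Set.range rel₄) := by
    apply ker_le_of π₂ hπ₂ rel₂ hker₂ π₃ Sum.inr
    · intro i
      exact Subgroup.subset_normalClosure ⟨Sum.inl i, rfl⟩
    · rintro (k | x)
      · refine ⟨v k, ?_, ?_⟩
        · rw [hv, h3inl]
        · exact Subgroup.subset_normalClosure ⟨Sum.inr k, rfl⟩
      · refine ⟨FreeGroup.of x, (h3inr x).symm, ?_⟩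
        rw [FreeGroup.map.of, mul_inv_cancel]
        exact one_mem _
  -- matching of index types
  have hcard1 : Fintype.card I₁ + 1 = Fintype.card X₁ := by
    rw [← Fintype.card_option]; exact Fintype.card_of_bijective hf₁
  have hcard2 : Fintype.card I₂ + 1 = Fintype.card X₂ := by
    rw [← Fintype.card_option]; exact Fintype.card_of_bijective hf₂
  have hcard : Fintype.card (I₁ ⊕ X₂) = Fintype.card (I₂ ⊕ X₁) := by
    rw [Fintype.card_sum, Fintype.card_sum]; omega
  set q : I₁ ⊕ X₂ ≃ I₂ ⊕ X₁ := Fintype.equivOfCardEq hcard with hq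
  set f₃ : I₁ ⊕ X₂ → X₁ ⊕ X₂ := Sum.elim (Sum.inl ∘ f₁) Sum.inr with hf₃
  set f₄ : I₂ ⊕ X₁ → X₁ ⊕ X₂ := Sum.elim (Sum.inr ∘ f₂) Sum.inl with hf₄
  have had3 : Function.Bijective (fun o : Option (I₁ ⊕ X₂) => o.elim (Sum.inl j₁) f₃) := by
    constructor
    · rintro (_ | (i | k)) (_ | (i' | k')) h
      · rfl
      · simp only [Option.elim, hf₃, Sum.elim_inl, Function.comp_apply, Sum.inl.injEq] at h
        exact absurd h.symm (adapted_ne hf₁ i')
      · simp [Option.elim, hf₃] at h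
      · simp only [Option.elim, hf₃, Sum.elim_inl, Function.comp_apply, Sum.inl.injEq] at h
        exact absurd h (adapted_ne hf₁ i)
      · simp only [Option.elim, hf₃, Sum.elim_inl, Function.comp_apply, Sum.inl.injEq] at h
        rw [adapted_inj hf₁ h]
      · simp [Option.elim, hf₃] at h
      · simp [Option.elim, hf₃] at h
      · simp [Option.elim, hf₃] at h
      · simp only [Option.elim, hf₃, Sum.elim_inr, Sum.inr.injEq] at h
        rw [h]
    · rintro (x | k)
      · obtain ⟨o, ho⟩ := hf₁.2 x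
        rcases o with _ | i
        · exact ⟨none, by simpa using ho⟩
        · exact ⟨some (Sum.inl i), by simpa [hf₃] using ho⟩
      · exact ⟨some (Sum.inr k), by simp [hf₃]⟩
  have had4 : Function.Bijective (fun o : Option (I₂ ⊕ X₁) => o.elim (Sum.inr j₂) f₄) := by
    constructor
    · rintro (_ | (i | k)) (_ | (i' | k')) h
      · rfl
      · simp only [Option.elim, hf₄, Sum.elim_inl, Function.comp_apply, Sum.inr.injEq] at h
        exact absurd h.symm (adapted_ne hf₂ i')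
      · simp [Option.elim, hf₄] at h
      · simp only [Option.elim, hf₄, Sum.elim_inl, Function.comp_apply, Sum.inr.injEq] at h
        exact absurd h (adapted_ne hf₂ i)
      · simp only [Option.elim, hf₄, Sum.elim_inl, Function.comp_apply, Sum.inr.injEq] at h
        rw [adapted_inj hf₂ h]
      · simp [Option.elim, hf₄] at h
      · simp [Option.elim, hf₄] at h
      · simp [Option.elim, hf₄] at h
      · simp only [Option.elim, hf₄, Sum.elim_inr, Sum.inl.injEq] at h
        rw [h]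
    · rintro (k | x)
      · exact ⟨some (Sum.inr k), by simp [hf₄]⟩
      · obtain ⟨o, ho⟩ := hf₂.2 x
        rcases o with _ | i
        · exact ⟨none, by simpa using ho⟩
        · exact ⟨some (Sum.inl i), by simpa [hf₄] using ho⟩
  have had4' : Function.Bijective
      (fun o : Option (I₁ ⊕ X₂) => o.elim (Sum.inr j₂) (f₄ ∘ q)) := by
    have : (fun o : Option (I₁ ⊕ X₂) => o.elim (Sum.inr j₂) (f₄ ∘ q)) =
        (fun o : Option (I₂ ⊕ X₁) => o.elim (Sum.inr j₂) f₄) ∘ (Equiv.optionCongr q) := by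
      funext o
      rcases o with _ | i <;> rfl
    rw [this]
    exact had4.comp (Equiv.bijective _)
  set ρ₃ := Φ.comp π₃ with hρ₃
  have hρ31 : ∀ w, ρ₃ (FreeGroup.map Sum.inl w) = (Φ.comp π₁) w := by
    intro w
    rw [hρ₃, MonoidHom.comp_apply, h31, MonoidHom.comp_apply]
  have hρ32 : ∀ w, ρ₃ (FreeGroup.map Sum.inr w) = (Φ.comp π₂) w := by
    intro w
    rw [hρ₃, MonoidHom.comp_apply, h32, MonoidHom.comp_apply]
  have hρr3 : ∀ i, ρ₃ (rel₃ i) = 1 := by
    intro i; rw [hρ₃, MonoidHom.comp_apply, hr3, map_one]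
  have hρr4 : ∀ i, ρ₃ (rel₄ i) = 1 := by
    intro i; rw [hρ₃, MonoidHom.comp_apply, hr4, map_one]
  obtain ⟨s1, hs1⟩ := stabilize (Φ.comp π₁) ρ₃ Sum.inl Sum.inr Sum.inl_injective Sum.inr_injective
    (by simp) hρ31 rel₁ u rel₃ (fun i => rfl) (fun k => rfl) (fun k => hρr3 _) f₁
  obtain ⟨s2, hs2⟩ := stabilize (Φ.comp π₂) ρ₃ Sum.inr Sum.inl Sum.inr_injective Sum.inl_injective
    (by simp) hρ32 rel₂ v rel₄ (fun i => rfl) (fun k => rfl) (fun k => hρr4 _) f₂
  rw [← hf₃] at hs1
  rw [← hf₄] at hs2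
  obtain ⟨s3, hs3⟩ := exchange ρ₃ rel₃ hρr3 f₃ (f₄ ∘ q) (Sum.inl j₁) (Sum.inr j₂) had3 had4'
  -- change of relators
  obtain ⟨U, hU⟩ := change_rel ρ₃ rel₃ (rel₄ ∘ q) hρr3 (fun i => hk3 (MonoidHom.mem_ker.mpr (hr4 _)))
  obtain ⟨V, hV⟩ := change_rel ρ₃ (rel₄ ∘ q) rel₃ (fun i => hρr4 _) (fun i => by
    have : Set.range (rel₄ ∘ q) = Set.range rel₄ := by
      rw [Set.range_comp, Set.range_eq_univ.mpr q.surjective, Set.image_univ]
    rw [this]
    exact hk4 (MonoidHom.mem_ker.mpr (hr3 _)))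
  have hUd := congrArg Matrix.det (hU (f₄ ∘ q))
  have hVd := congrArg Matrix.det (hV (f₄ ∘ q))
  rw [Matrix.det_mul, mnr_reindex] at hUd
  rw [Matrix.det_mul, mnr_reindex] at hVd
  have e1 : ρ₃ (FreeGroup.of (Sum.inl j₁)) = Φ (π₁ (FreeGroup.of j₁)) := by
    rw [hρ₃, MonoidHom.comp_apply, h3inl]
  have e2 : ρ₃ (FreeGroup.of (Sum.inr j₂)) = Φ (π₂ (FreeGroup.of j₂)) := by
    rw [hρ₃, MonoidHom.comp_apply, h3inr]
  rw [e1, e2, hs1] at hs3
  have hsq : ∀ s : ℤˣ, ((s : ℤ) : R) * ((s : ℤ) : R) = 1 := by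
    intro s
    rw [← Int.cast_mul, ← Units.val_mul, Int.units_mul_self]; simp
  set A1 := (mnr (Φ.comp π₁) rel₁ f₁).det with hA1
  set A2 := (mnr (Φ.comp π₂) rel₂ f₂).det with hA2
  set M3 := (mnr ρ₃ rel₃ (f₄ ∘ q)).det with hM3
  set c1 := (Φ (π₁ (FreeGroup.of j₁)) - 1).det with hc1
  set c2 := (Φ (π₂ (FreeGroup.of j₂)) - 1).det with hc2
  rw [hs2] at hUd hVd
  -- hUd : s2 A2 = det U * M3, hVd : M3 = det V * (s2 * A2), hs3 : s1 A1 c2 = s3 (M3 c1)
  have hmain : A1 * c2 = ((s1 : ℤ) : R) * ((s3 : ℤ) : R) * (M3 * c1) := by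
    have : A1 * c2 = ((s1 : ℤ) : R) * (((s1 : ℤ) : R) * A1 * c2) := by
      linear_combination (- A1 * c2) * hsq s1
    rw [this, hs3]; ring
  by_cases hA : A2 = 0
  · have hM0 : M3 = 0 := by rw [hVd, hA]; ring
    refine ⟨1, ?_⟩
    rw [hmain, hM0, hA]; simp
  · have hM : M3 ≠ 0 := by
      intro h0
      rw [h0, mul_zero] at hUd
      have : ((s2 : ℤ) : R) * (((s2 : ℤ) : R) * A2) = 0 := by rw [hUd, mul_zero]
      rw [← mul_assoc, hsq, one_mul] at this
      exact hA this
    have hVU : V.det * U.det = 1 := by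
      have : V.det * U.det * M3 = 1 * M3 := by
        rw [one_mul]
        conv_rhs => rw [hVd, hUd]
        ring
      exact mul_right_cancel₀ hM this
    have hunit : IsUnit (((s1 : ℤ) : R) * ((s3 : ℤ) : R) * (V.det * ((s2 : ℤ) : R))) := by
      refine IsUnit.of_mul_eq_one (((s1 : ℤ) : R) * ((s3 : ℤ) : R) * (U.det * ((s2 : ℤ) : R))) ?_
      calc ((s1 : ℤ) : R) * ((s3 : ℤ) : R) * (V.det * ((s2 : ℤ) : R)) *
            (((s1 : ℤ) : R) * ((s3 : ℤ) : R) * (U.det * ((s2 : ℤ) : R))) =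
            (((s1 : ℤ) : R) * ((s1 : ℤ) : R)) * (((s3 : ℤ) : R) * ((s3 : ℤ) : R)) *
              (((s2 : ℤ) : R) * ((s2 : ℤ) : R)) * (V.det * U.det) := by ring
        _ = 1 := by rw [hsq, hsq, hsq, hVU]; ring
    obtain ⟨w, hw⟩ := hunit
    refine ⟨w, ?_⟩
    rw [hw, hmain, hVd]
    ring

end
end WadaSec

/-! ## Laurent polynomials -/

section LaurentSec


lemma units_laurent (u : (ℤ[T;T⁻¹])ˣ) :
    ∃ (s : ℤˣ) (k : ℤ), (u : ℤ[T;T⁻¹]) = C (s : ℤ) * T k := by
  obtain ⟨n, P, hP⟩ := exists_T_pow (u : ℤ[T;T⁻¹])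
  obtain ⟨m, Q, hQ⟩ := exists_T_pow ((u⁻¹ : (ℤ[T;T⁻¹])ˣ) : ℤ[T;T⁻¹])
  have h1 : P * Q = Polynomial.X ^ (n + m) := by
    apply Polynomial.toLaurent_injective
    rw [map_mul, hP, hQ, Polynomial.toLaurent_X_pow]
    have : (u : ℤ[T;T⁻¹]) * T n * (((u⁻¹ : (ℤ[T;T⁻¹])ˣ) : ℤ[T;T⁻¹]) * T m) =
        ((u : ℤ[T;T⁻¹]) * ((u⁻¹ : (ℤ[T;T⁻¹])ˣ) : ℤ[T;T⁻¹])) * (T n * T m) := by ring
    rw [this, Units.mul_inv, one_mul, ← T_add]
    push_cast
    rfl
  have h2 : P ∣ Polynomial.X ^ (n + m) := ⟨Q, h1.symm⟩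
  obtain ⟨i, _, hi⟩ := (dvd_prime_pow Polynomial.prime_X (n + m)).mp h2
  obtain ⟨v, hv⟩ := hi.symm
  obtain ⟨r, hr, hrv⟩ := Polynomial.isUnit_iff.mp v.isUnit
  obtain ⟨s, hs⟩ := hr
  refine ⟨s, i - n, ?_⟩
  have h3 : (u : ℤ[T;T⁻¹]) = ((u : ℤ[T;T⁻¹]) * T n) * T (-n) := by
    rw [mul_assoc, ← T_add]; simp
  rw [h3, ← hP, ← hv, ← hrv, ← hs, map_mul, Polynomial.toLaurent_X_pow, Polynomial.toLaurent_C,
    T_sub]
  ring

lemma negT_T_one : negT (T 1) = - T 1 := by
  unfold negT
  rw [eval₂_T]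
  simp

lemma negT_T_neg_one : negT (T (-1)) = - T (-1) := by
  have h1 : negT (T (-1)) * negT (T 1) = 1 := by
    rw [← map_mul, ← T_add]; simp
  rw [negT_T_one] at h1
  have h2 : (T (-1) : ℤ[T;T⁻¹]) * T 1 = 1 := by rw [← T_add]; simp
  have h3 : (T 1 : ℤ[T;T⁻¹]) * T (-1) = 1 := by rw [← T_add]; simp
  linear_combination (- T (-1)) * h1 - negT (T (-1)) * h3

lemma T_inj {m n : ℤ} (h : (T m : ℤ[T;T⁻¹]) = T n) : m = n := by
  by_contra hne
  have := congrArg (fun f : ℤ[T;T⁻¹] => f.coeff m) h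
  simp only [T_apply] at this
  have h' : ¬ n = m := fun h => hne h.symm
  rw [if_pos trivial, if_neg h'] at this
  exact one_ne_zero this

theorem charZero_laurent : CharZero (ℤ[T;T⁻¹]) := by
  have : Function.Injective (C : ℤ → ℤ[T;T⁻¹]) := by
    intro a b h
    have := congrArg (fun f : ℤ[T;T⁻¹] => f.coeff 0) h
    simp only [C_apply] at this
    simpa using this
  constructor
  intro a b h
  have h2 : (C (a : ℤ) : ℤ[T;T⁻¹]) = C (b : ℤ) := by
    rw [map_natCast, map_natCast]; exact h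
  exact_mod_cast this h2


end LaurentSec

/-! ## Assembly -/

section FinalSec


lemma twistedRep_eq {G : Type*} [Group G] {p : ℕ} [NeZero p]
    (φ : G →* Multiplicative ℤ) (δ : G →* DihedralGroup p) :
    twistedRep φ δ = twRep (tHom φ) δ := rfl

lemma succAbove_adapted {m : ℕ} (j₀ : Fin (m + 1)) :
    Function.Bijective (fun o : Option (Fin m) => o.elim j₀ j₀.succAbove) := by
  constructor
  · rintro (_ | i) (_ | i') h
    · rfl
    · exact absurd h.symm (Fin.succAbove_ne j₀ i')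
    · exact absurd h (Fin.succAbove_ne j₀ i)
    · exact congrArg some (Fin.succAbove_right_injective h)
  · intro x
    by_cases hx : x = j₀
    · exact ⟨none, hx.symm⟩
    · obtain ⟨i, hi⟩ := Fin.exists_succAbove_eq hx
      exact ⟨some i, hi⟩

/-- an epimorphism sends both generators to distinct reflections -/
lemma images_reflections {p : ℕ} [Fact p.Prime] (hp : p ≠ 2) (δ : FreeGroup (Fin 2) →* DihedralGroup p)
    (hδ : Function.Surjective δ) (hconj : ∃ g, g * δ (FreeGroup.of 0) * g⁻¹ = δ (FreeGroup.of 1)) :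
    ∃ a b, δ (FreeGroup.of 0) = DihedralGroup.sr a ∧ δ (FreeGroup.of 1) = DihedralGroup.sr b ∧
      a ≠ b := by
  have hp3 : 3 ≤ p := by
    have := (Fact.out : p.Prime).two_le
    omega
  have hclosure : Subgroup.closure {δ (FreeGroup.of 0), δ (FreeGroup.of 1)} = ⊤ := by
    rw [eq_top_iff]
    rintro z -
    obtain ⟨w, rfl⟩ := hδ z
    induction w using FreeGroup.induction_on with
    | C1 => rw [map_one]; exact one_mem _
    | of x =>
      apply Subgroup.subset_closure
      fin_cases x <;> simp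
    | inv_of x h =>
      rw [map_inv]
      apply inv_mem
      apply Subgroup.subset_closure
      fin_cases x <;> simp
    | mul x y hx hy => rw [map_mul]; exact mul_mem hx hy
  obtain ⟨g, hg⟩ := hconj
  rcases h0 : δ (FreeGroup.of 0) with a | a
  · -- rotation: impossible
    exfalso
    have h1 : ∃ c, δ (FreeGroup.of 1) = DihedralGroup.r c := by
      rw [h0] at hg
      rcases g with i | i
      · refine ⟨a, ?_⟩
        rw [← hg, DihedralGroup.inv_r]
        simp
      · refine ⟨-a, ?_⟩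
        rw [← hg, DihedralGroup.inv_sr]
        simp
    obtain ⟨c, hc⟩ := h1
    have hle : Subgroup.closure {δ (FreeGroup.of 0), δ (FreeGroup.of 1)} ≤
        (dsgn (p := p)).ker := by
      rw [Subgroup.closure_le]
      rintro z (hz | hz)
      · rw [hz, h0]; rfl
      · rw [Set.mem_singleton_iff] at hz
        rw [hz, hc]; rfl
    rw [hclosure] at hle
    have h2 : DihedralGroup.sr (0 : ZMod p) ∈ (dsgn (p := p)).ker := hle (Subgroup.mem_top _)
    rw [MonoidHom.mem_ker] at h2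
    exact absurd h2 (by simp [dsgn])
  · have h1 : ∃ c, δ (FreeGroup.of 1) = DihedralGroup.sr c := by
      rw [h0] at hg
      rcases g with i | i
      · refine ⟨a - i - i, ?_⟩
        rw [← hg, DihedralGroup.inv_r]
        simp
        ring
      · refine ⟨i - (a - i), ?_⟩
        rw [← hg, DihedralGroup.inv_sr]
        simp
    obtain ⟨c, hc⟩ := h1
    refine ⟨a, c, rfl, hc, ?_⟩
    intro hac
    subst hac
    have hle : Subgroup.closure {δ (FreeGroup.of 0), δ (FreeGroup.of 1)} ≤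
        Subgroup.zpowers (DihedralGroup.sr a) := by
      rw [Subgroup.closure_le]
      rintro z (hz | hz)
      · rw [hz, h0]; exact Subgroup.mem_zpowers _
      · rw [Set.mem_singleton_iff] at hz
        rw [hz, hc]; exact Subgroup.mem_zpowers _
    rw [hclosure] at hle
    have h2 : DihedralGroup.r (1 : ZMod p) ∈ Subgroup.zpowers (DihedralGroup.sr a) :=
      hle (Subgroup.mem_top _)
    rw [Subgroup.mem_zpowers_iff] at h2
    obtain ⟨n, hn⟩ := h2
    rcases Int.even_or_odd n with ⟨k, hk⟩ | ⟨k, hk⟩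
    · rw [hk, ← two_mul, zpow_mul, zpow_two, DihedralGroup.sr_mul_self, one_zpow,
        DihedralGroup.one_def] at hn
      have h3 := DihedralGroup.r.inj hn
      have h4 : Fact (1 < p) := ⟨by omega⟩
      exact zero_ne_one h3
    · rw [hk, zpow_add, zpow_mul, zpow_two, DihedralGroup.sr_mul_self, one_zpow, one_mul,
        zpow_one] at hn
      exact absurd hn (by simp)

/-- `T k - 1` is divisible by `T 1 - 1` -/
lemma dvd_T_sub_one (k : ℤ) : (T 1 - 1 : ℤ[T;T⁻¹]) ∣ T k - 1 := by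
  induction k using Int.induction_on with
  | zero => simp
  | succ i ih =>
    have : (T ((i : ℤ) + 1) - 1 : ℤ[T;T⁻¹]) = T i * (T 1 - 1) + (T i - 1) := by
      rw [T_add]; ring
    rw [this]
    exact dvd_add (Dvd.intro_left _ rfl) ih
  | pred i ih =>
    have : (T (-(i : ℤ) - 1) - 1 : ℤ[T;T⁻¹]) = - (T (-(i : ℤ) - 1) * (T 1 - 1)) + (T (-(i : ℤ)) - 1) := by
      have h : (T (-(i : ℤ) - 1) : ℤ[T;T⁻¹]) * T 1 = T (-(i : ℤ)) := by
        rw [← T_add]; congr 1; ring
      linear_combination h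
    rw [this]
    exact dvd_add ((Dvd.intro_left _ rfl : (T 1 - 1 : ℤ[T;T⁻¹]) ∣ _).neg_right) ih

lemma T_one_sub_one_ne : (T 1 - 1 : ℤ[T;T⁻¹]) ≠ 0 := by
  intro h
  have : (T 1 : ℤ[T;T⁻¹]) = T 0 := by rw [T_zero]; exact sub_eq_zero.mp h
  exact absurd (T_inj this) (by norm_num)

lemma alexander_span {G : Type*} [Group G] (φ : G →* Multiplicative ℤ)
    (hφ : Function.Surjective φ) {I : Type*} (gen : I → G)
    (hgen : Subgroup.closure (Set.range gen) = ⊤) (Δ : ℤ[T;T⁻¹]) (A : I → ℤ[T;T⁻¹])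
    (hA : ∀ j, ∃ u : (ℤ[T;T⁻¹])ˣ,
      A j * (T 1 - 1) = (u : ℤ[T;T⁻¹]) * (Δ * (T (φ (gen j)).toAdd - 1))) :
    Ideal.span {Δ} = Ideal.span (Set.range A) := by
  have hq : ∀ k : ℤ, ∃ q : ℤ[T;T⁻¹], T k - 1 = (T 1 - 1) * q := fun k => dvd_T_sub_one k
  choose q hq using hq
  have hA' : ∀ j, ∃ u : (ℤ[T;T⁻¹])ˣ, A j = (u : ℤ[T;T⁻¹]) * (Δ * q (φ (gen j)).toAdd) := by
    intro j
    obtain ⟨u, hu⟩ := hA j
    refine ⟨u, mul_right_cancel₀ T_one_sub_one_ne ?_⟩
    rw [hu, hq]; ring
  have hqadd : ∀ x y, q (x + y) = T x * q y + q x := by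
    intro x y
    apply mul_left_cancel₀ T_one_sub_one_ne
    rw [← hq, mul_add, mul_left_comm, ← hq, ← hq, T_add]; ring
  have hq0 : q 0 = 0 := by
    apply mul_left_cancel₀ T_one_sub_one_ne
    rw [← hq]; simp
  have hqneg : ∀ x, q (-x) = - (T (-x) * q x) := by
    intro x
    have := hqadd (-x) x
    rw [neg_add_cancel, hq0] at this
    exact eq_neg_of_add_eq_zero_right this.symm
  have hq1 : q 1 = 1 := by
    apply mul_left_cancel₀ T_one_sub_one_ne
    rw [← hq]; ring
  apply le_antisymm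
  · rw [Ideal.span_singleton_le_iff_mem]
    let S : Subgroup G :=
      { carrier := {g | Δ * q (φ g).toAdd ∈ Ideal.span (Set.range A)}
        one_mem' := by
          rw [Set.mem_ofPred_eq, map_one, toAdd_one, hq0, mul_zero]
          exact zero_mem _
        mul_mem' := by
          intro x y hx hy
          rw [Set.mem_ofPred_eq] at *
          rw [map_mul, toAdd_mul, hqadd, mul_add, mul_left_comm]
          exact add_mem (Ideal.mul_mem_left _ _ hy) hx
        inv_mem' := by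
          intro x hx
          rw [Set.mem_ofPred_eq] at *
          rw [map_inv, toAdd_inv, hqneg, mul_neg, mul_left_comm]
          exact neg_mem (Ideal.mul_mem_left _ _ hx) }
    have hS : Subgroup.closure (Set.range gen) ≤ S := by
      rw [Subgroup.closure_le]
      rintro _ ⟨j, rfl⟩
      show Δ * q (φ (gen j)).toAdd ∈ Ideal.span (Set.range A)
      obtain ⟨u, hu⟩ := hA' j
      have : Δ * q (φ (gen j)).toAdd = ((u⁻¹ : (ℤ[T;T⁻¹])ˣ) : ℤ[T;T⁻¹]) * A j := by
        rw [hu, ← mul_assoc, Units.inv_mul, one_mul]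
      rw [this]
      exact Ideal.mul_mem_left _ _ (Ideal.subset_span ⟨j, rfl⟩)
    rw [hgen] at hS
    obtain ⟨g, hg⟩ := hφ (Multiplicative.ofAdd 1)
    have h1 : Δ * q (φ g).toAdd ∈ Ideal.span (Set.range A) := hS (Subgroup.mem_top g)
    rw [hg, toAdd_ofAdd, hq1, mul_one] at h1
    exact h1
  · rw [Ideal.span_le]
    rintro _ ⟨j, rfl⟩
    obtain ⟨u, hu⟩ := hA' j
    rw [SetLike.mem_coe, Ideal.mem_span_singleton, hu]
    exact ⟨(u : ℤ[T;T⁻¹]) * q (φ (gen j)).toAdd, by ring⟩

/-- powers of `t` as units -/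
noncomputable def Tu : Multiplicative ℤ →* (ℤ[T;T⁻¹])ˣ :=
  MonoidHom.toHomUnits (tHom (MonoidHom.id (Multiplicative ℤ)))

lemma Tu_coe (x : Multiplicative ℤ) : (Tu x : ℤ[T;T⁻¹]) = T x.toAdd := rfl

lemma lift_unit_entry {G : Type*} [Monoid G] {R : Type*} [CommRing R] (χ : G →* R)
    (Φ : G →* Matrix Unit Unit R) (hΦ : ∀ g, Φ g () () = χ g) (z : MonoidAlgebra ℤ G) :
    (MonoidAlgebra.lift ℤ (Matrix Unit Unit R) G Φ z) () () = MonoidAlgebra.lift ℤ R G χ z := by
  rw [MonoidAlgebra.lift_apply, MonoidAlgebra.lift_apply]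
  simp only [Finsupp.sum, Matrix.sum_apply, Matrix.smul_apply, hΦ]

/-- one-dimensional representation as `1 × 1` matrices -/
noncomputable def oneDim {G : Type*} [Group G] (φ : G →* Multiplicative ℤ) :
    G →* Matrix Unit Unit ℤ[T;T⁻¹] where
  toFun g := Matrix.of fun _ _ => T (φ g).toAdd
  map_one' := by
    ext i j
    simp
  map_mul' g h := by
    ext i j
    rw [Matrix.mul_apply, Finset.univ_unique, Finset.sum_singleton, Matrix.of_apply,
      Matrix.of_apply, Matrix.of_apply, map_mul, toAdd_mul, T_add]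

/-- Main theorem, product form. -/
theorem main (a : ℕ) (b : ℤ) (ha : Odd a) (hb : Odd b) (hab : IsCoprime (a : ℤ) b)
    (p : ℕ) [Fact p.Prime] (hp : p ≠ 2) (m : ℕ) (rels : Fin m → FreeGroup (Fin (m + 1)))
    (e : PresentedGroup (Set.range rels) ≃* TwoBridgeGroup a b)
    (φ : PresentedGroup (Set.range rels) →* Multiplicative ℤ) (hφ : Function.Surjective φ)
    (δ : PresentedGroup (Set.range rels) →* DihedralGroup p) (hδ : Function.Surjective δ) :
    ∃ Δ f : ℤ[T;T⁻¹], Ideal.span {Δ} = alexanderIdeal rels φ ∧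
      ∀ j₀ : Fin (m + 1), ∃ u : (ℤ[T;T⁻¹])ˣ,
        (1 - T 1) * wadaNum rels (twistedRep φ δ) j₀ =
          (u : ℤ[T;T⁻¹]) * (Δ * f * negT f) * wadaDen rels (twistedRep φ δ) j₀ := by
  obtain ⟨l, hl⟩ : ∃ l, p = 2 * l + 1 := (Fact.out : p.Prime).odd_of_ne_two hp
  set G := PresentedGroup (Set.range rels) with hG
  set r := schubertRel a b with hr
  set π₁ : FreeGroup (Fin (m + 1)) →* G := PresentedGroup.mk (Set.range rels) with hπ₁
  obtain ⟨π₂, hπ₂⟩ : ∃ π₂ : FreeGroup (Fin 2) →* G, π₂ = (e.symm : TwoBridgeGroup a b →* G).comp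
    (PresentedGroup.mk {schubertRel a b}) := ⟨_, rfl⟩
  have hs₁ : Function.Surjective π₁ := PresentedGroup.mk_surjective _
  have hs₂ : Function.Surjective π₂ := by
    rw [hπ₂]; exact e.symm.surjective.comp (PresentedGroup.mk_surjective _)
  have hk₁ : π₁.ker = Subgroup.normalClosure (Set.range rels) := by
    ext x
    rw [MonoidHom.mem_ker, hπ₁, PresentedGroup.mk_eq_one_iff]
  have hk₂ : π₂.ker = Subgroup.normalClosure (Set.range fun _ : Fin 1 => r) := by
    ext x
    rw [Set.range_const, MonoidHom.mem_ker, hπ₂, MonoidHom.comp_apply]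
    have : ((e.symm : TwoBridgeGroup a b →* G) (PresentedGroup.mk {schubertRel a b} x) = 1) ↔
        PresentedGroup.mk {schubertRel a b} x = 1 := by
      exact EmbeddingLike.map_eq_one_iff (f := e.symm)
    rw [this, PresentedGroup.mk_eq_one_iff]
  have hr1 : π₂ r = 1 := by
    rw [← MonoidHom.mem_ker, hk₂]
    exact Subgroup.subset_normalClosure ⟨0, rfl⟩
  have hconj : π₂ (schubertWord a b) * π₂ (FreeGroup.of 0) * (π₂ (schubertWord a b))⁻¹ =
      π₂ (FreeGroup.of 1) := by
    rw [hr, schubertRel, map_mul, map_mul, map_mul, map_inv, map_inv, mul_inv_eq_one] at hr1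
    exact hr1
  -- degrees
  obtain ⟨n, hn⟩ : ∃ n, n = (φ (π₂ (FreeGroup.of 0))).toAdd := ⟨_, rfl⟩
  have hφ0 : φ (π₂ (FreeGroup.of 0)) = Multiplicative.ofAdd n := by rw [hn]; rfl
  have hφ1 : φ (π₂ (FreeGroup.of 1)) = Multiplicative.ofAdd n := by
    rw [← hconj, map_mul, map_mul, map_inv, mul_comm, ← mul_assoc, inv_mul_cancel, one_mul, hφ0]
  set deg : FreeGroup (Fin 2) →* Multiplicative ℤ := FreeGroup.lift fun _ => Multiplicative.ofAdd 1
    with hdeg
  have hφdeg : ∀ w, φ (π₂ w) = Multiplicative.ofAdd n ^ (deg w).toAdd := by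
    intro w
    have : φ.comp π₂ = (zpowersHom (Multiplicative ℤ) (Multiplicative.ofAdd n)).comp deg := by
      apply FreeGroup.ext_hom
      intro i
      rw [MonoidHom.comp_apply, MonoidHom.comp_apply, zpowersHom_apply, hdeg,
        FreeGroup.lift_apply_of, toAdd_ofAdd, zpow_one]
      fin_cases i
      · exact hφ0
      · exact hφ1
    have h2 := DFunLike.congr_fun this w
    rw [MonoidHom.comp_apply, MonoidHom.comp_apply, zpowersHom_apply] at h2
    exact h2
  have hn1 : n = 1 ∨ n = -1 := by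
    obtain ⟨g, hg⟩ := hφ (Multiplicative.ofAdd 1)
    obtain ⟨w, rfl⟩ := hs₂ g
    rw [hφdeg, ← ofAdd_zsmul] at hg
    have h1 : (deg w).toAdd * n = 1 := by
      have := Multiplicative.ofAdd.injective hg
      simpa using this
    exact Int.eq_one_or_neg_one_of_mul_eq_one' (by rw [mul_comm]; exact h1) |>.imp
      (fun h => h.1) (fun h => h.1)
  -- dihedral images
  obtain ⟨a', b', ha', hb', hab'⟩ := images_reflections hp (δ.comp π₂) (hδ.comp hs₂)
    ⟨δ (π₂ (schubertWord a b)), by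
      rw [MonoidHom.comp_apply, MonoidHom.comp_apply, ← map_inv, ← map_mul, ← map_mul, hconj]⟩
  let 𝒮 : Setup p ℤ[T;T⁻¹] :=
    { t := Tu (Multiplicative.ofAdd n)
      deg := deg
      δ := δ.comp π₂
      a := a'
      b := b'
      hx := by rw [hdeg, FreeGroup.lift_apply_of]
      hy := by rw [hdeg, FreeGroup.lift_apply_of]
      ha := ha'
      hb := hb'
      hab := hab' }
  have ht : (𝒮.t : ℤ[T;T⁻¹]) = T n := rfl
  have hχ : 𝒮.χ = (tHom φ).comp π₂ := by
    apply MonoidHom.ext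
    intro w
    rw [Setup.χ_apply]
    show ((Tu (Multiplicative.ofAdd n) ^ (deg w).toAdd : (ℤ[T;T⁻¹])ˣ) : ℤ[T;T⁻¹]) =
      T (φ (π₂ w)).toAdd
    rw [← map_zpow, Tu_coe, hφdeg]
  have hρ : 𝒮.ρ = (twistedRep φ δ).comp π₂ := by
    apply MonoidHom.ext
    intro w
    rw [Setup.ρ, twistedRep_eq, MonoidHom.comp_apply, twRep_apply, twRep_apply, hχ]
    rfl
  have hτ : negT 𝒮.t = - 𝒮.t := by
    rw [ht]
    rcases hn1 with h | h
    · rw [h]; exact negT_T_one
    · rw [h]; exact negT_T_neg_one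
  have ht1 : (𝒮.t : ℤ[T;T⁻¹]) - 1 ≠ 0 := by
    intro h
    rw [ht] at h
    have : (T n : ℤ[T;T⁻¹]) = T 0 := by rw [T_zero]; exact sub_eq_zero.mp h
    have := T_inj this
    rcases hn1 with h | h <;> omega
  have ht2 : 1 - (𝒮.t : ℤ[T;T⁻¹]) ^ 2 ≠ 0 := by
    intro h
    rw [ht, T_pow] at h
    have : (T 0 : ℤ[T;T⁻¹]) = T ((2 : ℕ) * n) := by rw [T_zero]; exact sub_eq_zero.mp h
    have := T_inj this
    rcases hn1 with h | h <;> subst h <;> norm_num at this
  have hcz : CharZero (ℤ[T;T⁻¹]) := charZero_laurent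
  have h2 : ∀ x : ℤ[T;T⁻¹], x + x = 0 → x = 0 := by
    intro x hx
    rw [← two_mul] at hx
    exact (mul_eq_zero.mp hx).resolve_left (by norm_num)
  have hp0 : ((p : ℕ) : ℤ[T;T⁻¹]) ≠ 0 := Nat.cast_ne_zero.mpr (Fact.out : p.Prime).ne_zero
  obtain ⟨g, hg1, hg2⟩ := schubert_symm ha hb hab
  obtain ⟨f, s, hcore⟩ := 𝒮.core hl h2 hp0 negT hτ ht1 ht2 r g hg1 hg2
    (by show δ (π₂ r) = 1; rw [hr1, map_one])
  rw [hρ, hχ] at hcore
  obtain ⟨Δ, hΔ⟩ : ∃ Δ, Δ = MonoidAlgebra.lift ℤ ℤ[T;T⁻¹] _ ((tHom φ).comp π₂) (fox 0 r) :=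
    ⟨_, rfl⟩
  have hcore2 : (1 - T n) * (DD ((twistedRep φ δ).comp π₂) 0 r).det =
      ((s : ℤ) : ℤ[T;T⁻¹]) * (Δ * f * negT f) *
        (twistedRep φ δ (π₂ (FreeGroup.of 1)) - 1).det := by
    rw [hΔ]
    exact hcore
  have hone0 : (1 : Fin 2).succAbove (0 : Fin 1) = 0 := by decide
  -- 1 - T 1 versus 1 - T n
  have hunit : ∃ v : (ℤ[T;T⁻¹])ˣ, (1 - T 1 : ℤ[T;T⁻¹]) = (v : ℤ[T;T⁻¹]) * (1 - T n) := by
    rcases hn1 with h | h
    · exact ⟨1, by rw [h]; simp⟩
    · refine ⟨- Tu (Multiplicative.ofAdd 1), ?_⟩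
      rw [h, Units.val_neg, Tu_coe, toAdd_ofAdd]
      have : (T 1 : ℤ[T;T⁻¹]) * T (-1) = 1 := by rw [← T_add]; simp
      linear_combination (-1 : ℤ[T;T⁻¹]) * this
  obtain ⟨v, hv⟩ := hunit
  refine ⟨Δ, f, ?_, ?_⟩
  · -- Alexander ideal
    unfold alexanderIdeal
    have hgen : Subgroup.closure (Set.range fun j => π₁ (FreeGroup.of j)) = ⊤ :=
      PresentedGroup.closure_range_of _
    apply alexander_span φ hφ (fun j => π₁ (FreeGroup.of j)) hgen
    intro j
    obtain ⟨u, hu⟩ := wada_invariance (oneDim φ) π₁ hs₁ rels hk₁ π₂ hs₂ (fun _ : Fin 1 => r) hk₂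
      j.succAbove j (succAbove_adapted j) (1 : Fin 2).succAbove 1 (succAbove_adapted 1)
    have e1 : (mnr ((oneDim φ).comp π₁) rels j.succAbove).det = (Matrix.of fun i k : Fin m =>
        MonoidAlgebra.lift ℤ ℤ[T;T⁻¹] (FreeGroup (Fin (m + 1)))
          ((tHom φ).comp π₁) (fox (j.succAbove k) (rels i))).det := by
      rw [← Matrix.det_submatrix_equiv_self (Equiv.prodPUnit (Fin m)).symm]
      congr 1
      apply Matrix.ext
      intro i k
      exact lift_unit_entry ((tHom φ).comp π₁) ((oneDim φ).comp π₁) (fun g => rfl) _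
    have e2 : (mnr ((oneDim φ).comp π₂) (fun _ : Fin 1 => r) (1 : Fin 2).succAbove).det = Δ := by
      rw [← Matrix.det_submatrix_equiv_self (Equiv.prodPUnit (Fin 1)).symm, Matrix.det_unique, hΔ]
      exact lift_unit_entry ((tHom φ).comp π₂) ((oneDim φ).comp π₂) (fun g => rfl) _
    have e3 : ∀ g : G, (oneDim φ g - 1).det = T (φ g).toAdd - 1 := by
      intro g
      rw [Matrix.det_unique]
      rfl
    rw [e1, e2, e3, e3, hφ1, toAdd_ofAdd] at hu
    refine ⟨v * u, ?_⟩
    have h3 : (T 1 - 1 : ℤ[T;T⁻¹]) = (v : ℤ[T;T⁻¹]) * (T n - 1) := by linear_combination -hv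
    rw [h3, Units.val_mul]
    linear_combination (v : ℤ[T;T⁻¹]) * hu
  · intro j₀
    obtain ⟨u, hu⟩ := wada_invariance (twistedRep φ δ) π₁ hs₁ rels hk₁ π₂ hs₂
      (fun _ : Fin 1 => r) hk₂
      j₀.succAbove j₀ (succAbove_adapted j₀) (1 : Fin 2).succAbove 1 (succAbove_adapted 1)
    have e1 : (mnr ((twistedRep φ δ).comp π₁) rels j₀.succAbove).det =
        wadaNum rels (twistedRep φ δ) j₀ := rfl
    have e2 : (mnr ((twistedRep φ δ).comp π₂) (fun _ : Fin 1 => r) (1 : Fin 2).succAbove).det =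
        (DD ((twistedRep φ δ).comp π₂) 0 r).det := by
      rw [← Matrix.det_submatrix_equiv_self (Equiv.uniqueProd (ZMod p) (Fin 1)).symm]
      rfl
    have e3 : (twistedRep φ δ (π₁ (FreeGroup.of j₀)) - 1).det =
        wadaDen rels (twistedRep φ δ) j₀ := rfl
    rw [e1, e2, e3] at hu
    have hden : (twistedRep φ δ (π₂ (FreeGroup.of 1)) - 1).det ≠ 0 := by
      have := Setup.det_sr_sub_one hl h2 hp0 negT _ hτ b'
      have h4 : twistedRep φ δ (π₂ (FreeGroup.of 1)) = mono (𝒮.t : ℤ[T;T⁻¹]) (DihedralGroup.sr b') := by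
        rw [← 𝒮.ρ_y, hρ]; rfl
      rw [h4, this]
      exact mul_ne_zero ht1 (pow_ne_zero _ ht2)
    have hs' : IsUnit (((s : ℤ) : ℤ[T;T⁻¹])) := by
      have : ((s : ℤ) : ℤ[T;T⁻¹]) * ((s : ℤ) : ℤ[T;T⁻¹]) = 1 := by
        rw [← Int.cast_mul, ← Units.val_mul, Int.units_mul_self]; simp
      exact IsUnit.of_mul_eq_one _ this
    obtain ⟨s', hs'⟩ := hs'
    refine ⟨v * u * s', mul_right_cancel₀ hden ?_⟩
    rw [Units.val_mul, Units.val_mul, hs']
    calc (1 - T 1) * wadaNum rels (twistedRep φ δ) j₀ *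
          (twistedRep φ δ (π₂ (FreeGroup.of 1)) - 1).det
        = (v : ℤ[T;T⁻¹]) * (1 - T n) * (wadaNum rels (twistedRep φ δ) j₀ *
          (twistedRep φ δ (π₂ (FreeGroup.of 1)) - 1).det) := by rw [hv]; ring
      _ = (v : ℤ[T;T⁻¹]) * (u : ℤ[T;T⁻¹]) * wadaDen rels (twistedRep φ δ) j₀ *
          ((1 - T n) * (DD ((twistedRep φ δ).comp π₂) 0 r).det) := by rw [hu]; ring
      _ = _ := by rw [hcore2]; ring
end FinalSec


/-- `det Φ(g - 1) ≠ 0` when `φ(g) ≠ 0`. -/
lemma det_twistedRep_sub_one_ne {G : Type*} [Group G] {p : ℕ} [NeZero p]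
    (φ : G →* Multiplicative ℤ) (δ : G →* DihedralGroup p) (g : G) (hg : φ g ≠ 1) :
    (twistedRep φ δ g - 1).det ≠ 0 := by
  intro h0
  obtain ⟨v, hv, hv0⟩ := Matrix.exists_mulVec_eq_zero_iff.mpr h0
  have h1 : (twistedRep φ δ g).mulVec v = v := by
    rw [Matrix.sub_mulVec, Matrix.one_mulVec] at hv0
    exact sub_eq_zero.mp hv0
  have h2 : ∀ k : ℕ, (twistedRep φ δ (g ^ k)).mulVec v = v := by
    intro k
    induction k with
    | zero => rw [pow_zero, map_one, Matrix.one_mulVec]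
    | succ k ih => rw [pow_succ, map_mul, ← Matrix.mulVec_mulVec, h1, ih]
  have h3 : (δ g) ^ (2 * p) = 1 := by
    have := pow_card_eq_one' (x := δ g)
    rwa [DihedralGroup.nat_card] at this
  have h4 := h2 (2 * p)
  rw [twistedRep_eq, twRep_apply, map_pow δ, h3] at h4
  have h5 : ∀ i, tHom φ (g ^ (2 * p)) * v i = v i := by
    intro i
    have h6 := congrFun h4 i
    have h7 : (mono (tHom φ (g ^ (2 * p))) (1 : DihedralGroup p)).mulVec v i =
        tHom φ (g ^ (2 * p)) * v i := by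
      simp only [Matrix.mulVec, dotProduct, mono, Matrix.of_apply, dihAct_one, ite_mul, zero_mul]
      rw [Finset.sum_ite_eq]
      simp
    rw [h7] at h6
    exact h6
  obtain ⟨i, hi⟩ : ∃ i, v i ≠ 0 := by
    by_contra hne
    push Not at hne
    exact hv (funext hne)
  have h8 : tHom φ (g ^ (2 * p)) = 1 := by
    apply mul_right_cancel₀ hi
    rw [h5, one_mul]
  have h9 : (T (φ (g ^ (2 * p))).toAdd : ℤ[T;T⁻¹]) = T 0 := by rw [T_zero]; exact h8
  have h10 := T_inj h9
  rw [map_pow, toAdd_pow] at h10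
  have h11 : (φ g).toAdd ≠ 0 := fun h => hg (by rw [← ofAdd_toAdd (φ g), h, ofAdd_zero])
  have h12 : (2 * p : ℕ) ≠ 0 := by
    have := NeZero.ne p
    omega
  rw [smul_eq_zero] at h10
  exact h10.elim h12 h11

/-- some denominator is nonzero -/
lemma exists_wadaDen_ne {m p : ℕ} [NeZero p] (rels : Fin m → FreeGroup (Fin (m + 1)))
    (φ : PresentedGroup (Set.range rels) →* Multiplicative ℤ) (hφ : Function.Surjective φ)
    (δ : PresentedGroup (Set.range rels) →* DihedralGroup p) :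
    ∃ j₀, wadaDen rels (twistedRep φ δ) j₀ ≠ 0 := by
  have h1 : ∃ j₀ : Fin (m + 1), φ (PresentedGroup.of j₀) ≠ 1 := by
    by_contra hne
    push Not at hne
    have h2 : φ = 1 := PresentedGroup.ext (fun x => by rw [hne x]; rfl)
    obtain ⟨g, hg⟩ := hφ (Multiplicative.ofAdd 1)
    rw [h2, MonoidHom.one_apply] at hg
    have := congrArg Multiplicative.toAdd hg
    simp at this
  obtain ⟨j₀, hj₀⟩ := h1
  exact ⟨j₀, det_twistedRep_sub_one_ne φ δ _ hj₀⟩

end Pool.Agent.H71.TwoBridge
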