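import Mathlib

/-!
# Twisted Alexander polynomials of two-bridge knots: definitions
-/

set_option autoImplicit false

open LaurentPolynomial

namespace TBD

/-- The sign `ε_i = (-1)^⌊i b / a⌋`. -/
def eps (a : ℕ) (b : ℤ) (i : ℕ) : ℤ := if Even (i * b / a) then 1 else -1

/-- Schubert's word `w = x^{ε_1} y^{ε_2} x^{ε_3} ⋯ y^{ε_{a-1}}`, `x = of 0`, `y = of 1`. -/
def word (a : ℕ) (b : ℤ) : FreeGroup (Fin 2) :=
  ((List.range (a - 1)).map fun i => FreeGroup.of (if Even i then 0 else 1) ^ eps a b (i + 1)).prod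

/-- The relator `w x w⁻¹ y⁻¹`; the group of the two-bridge knot `S(a, b)` is `⟨x, y | w x = y w⟩`. -/
def rel (a : ℕ) (b : ℤ) : FreeGroup (Fin 2) :=
  word a b * FreeGroup.of 0 * (word a b)⁻¹ * (FreeGroup.of 1)⁻¹

/-- `⟨g_i | R⟩` is a presentation of `G`; `π` maps the free group to `G`. -/
def Pres {n : ℕ} {G : Type} [Group G] (R : Set (FreeGroup (Fin n))) (π : FreeGroup (Fin n) →* G) :
    Prop :=
  Function.Surjective π ∧ π.ker = Subgroup.normalClosure R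

/-- `Φ(∂w/∂g_j)`, the Fox derivative along the reduced word: `∂(g_i v) = δ_ij + g_i ∂v`,
`∂(g_i⁻¹ v) = g_i⁻¹ (∂v - δ_ij)`. -/
def fox {n : ℕ} {R : Type} [Ring R] (Φ : FreeGroup (Fin n) → R) (j : Fin n)
    (w : FreeGroup (Fin n)) : R :=
  w.toWord.foldr (fun l s => if l.2 then (if l.1 = j then 1 else 0) + Φ (.of l.1) * s
    else Φ (.of l.1)⁻¹ * (s - if l.1 = j then 1 else 0)) 0

/-- The matrix `(Φ(∂r_i/∂g_j))` without the column `j₀`. -/
def jac {m : ℕ} {R : Type} [Ring R] (Φ : FreeGroup (Fin (m + 1)) → R)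
    (r : Fin m → FreeGroup (Fin (m + 1))) (j₀ : Fin (m + 1)) : Matrix (Fin m) (Fin m) R :=
  .of fun i j => fox Φ (j₀.succAbove j) (r i)

/-- `Φ(g) = t^{φ(g)}` times the permutation matrix of `α(g)`. -/
noncomputable def Phi {n p : ℕ} (φ : FreeGroup (Fin n) →* Multiplicative ℤ)
    (α : FreeGroup (Fin n) →* Equiv.Perm (ZMod p)) (g : FreeGroup (Fin n)) :
    Matrix (ZMod p) (ZMod p) ℤ[T;T⁻¹] :=
  .of fun i j => if i = α g j then T (φ g).toAdd else 0

/-- The numerator `det (Φ(∂r_i/∂g_j))_{i, j ≠ j₀}` of Wada's polynomial. -/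
noncomputable def num {m p : ℕ} [NeZero p] (φ : FreeGroup (Fin (m + 1)) →* Multiplicative ℤ)
    (α : FreeGroup (Fin (m + 1)) →* Equiv.Perm (ZMod p))
    (r : Fin m → FreeGroup (Fin (m + 1))) (j₀ : Fin (m + 1)) : ℤ[T;T⁻¹] :=
  (Matrix.of fun x y : Fin m × ZMod p => jac (Phi φ α) r j₀ x.1 y.1 x.2 y.2).det

/-- The denominator `det Φ(g_{j₀} - 1)` of Wada's polynomial. -/
noncomputable def den {m p : ℕ} [NeZero p] (φ : FreeGroup (Fin (m + 1)) →* Multiplicative ℤ)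
    (α : FreeGroup (Fin (m + 1)) →* Equiv.Perm (ZMod p)) (j₀ : Fin (m + 1)) : ℤ[T;T⁻¹] :=
  (Phi φ α (.of j₀) - 1).det

end TBD
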