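import Pool.Agent.H71.TwoBridge.Short
import Pool.Agent.H71.TwoBridge.Proof

/-!
# Twisted Alexander polynomials of two-bridge knots: the short form of the theorem
-/

set_option autoImplicit false

open LaurentPolynomial

namespace TBD

open Pool.Agent.H71.TwoBridge

theorem word_eq (a : ℕ) (b : ℤ) : word a b = schubertWord a b := rfl

/-- The action of `D_p` on `ℤ/p`. -/
def act (p : ℕ) : DihedralGroup p →* Equiv.Perm (ZMod p) where
  toFun g := ⟨dihAct g, dihAct g⁻¹, fun n => by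
    rw [← dihAct_mul, inv_mul_cancel, DihedralGroup.one_def]
    simp [dihAct], fun n => by
    rw [← dihAct_mul, mul_inv_cancel, DihedralGroup.one_def]
    simp [dihAct]⟩
  map_one' := by
    ext n
    show dihAct 1 n = n
    rw [DihedralGroup.one_def]
    simp [dihAct]
  map_mul' g h := by
    ext n
    exact dihAct_mul g h n

theorem foldr_eq {n : ℕ} {R : Type} [Ring R] [Algebra ℤ R] (Φ : FreeGroup (Fin n) →* R) (j : Fin n)
    (l : List (Fin n × Bool)) :
    MonoidAlgebra.lift ℤ R (FreeGroup (Fin n)) Φ (foxWord j l) =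
      l.foldr (fun l s => if l.2 then (if l.1 = j then 1 else 0) + Φ (.of l.1) * s
        else Φ (.of l.1)⁻¹ * (s - if l.1 = j then 1 else 0)) 0 := by
  induction l with
  | nil => simp [foxWord]
  | cons x l ih =>
    obtain ⟨i, c⟩ := x
    cases c with
    | true =>
      rw [foxWord, map_add, map_mul, ih, MonoidAlgebra.lift_of]
      simp only [List.foldr_cons, if_true]
      congr 1
      split_ifs <;> simp
    | false =>
      rw [foxWord, map_mul, map_sub, ih, MonoidAlgebra.lift_of]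
      simp only [List.foldr_cons, Bool.false_eq_true, if_false]
      congr 2
      split_ifs <;> simp

theorem fox_eq {n : ℕ} {R : Type} [Ring R] [Algebra ℤ R] (Φ : FreeGroup (Fin n) →* R)
    (Ψ : FreeGroup (Fin n) → R) (h : ∀ g, Φ g = Ψ g) (j : Fin n) (w : FreeGroup (Fin n)) :
    MonoidAlgebra.lift ℤ R (FreeGroup (Fin n)) Φ (Pool.Agent.H71.TwoBridge.fox j w) =
      fox Ψ j w := by
  have h1 : Ψ = fun g => Φ g := funext fun g => (h g).symm
  rw [h1]
  exact foldr_eq Φ j w.toWord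

theorem short (a : ℕ) (b : ℤ) (ha : Odd a) (hb : Odd b) (hab : IsCoprime (a : ℤ) b) (p : ℕ)
    [Fact p.Prime] (hp : p ≠ 2) (G : Type) [Group G] (ω : FreeGroup (Fin 2) →* G)
    (hω : Pres {rel a b} ω) (m : ℕ) (r : Fin m → FreeGroup (Fin (m + 1)))
    (π : FreeGroup (Fin (m + 1)) →* G) (hπ : Pres (Set.range r) π)
    (φ : G →* Multiplicative ℤ) (hφ : Function.Surjective φ)
    (δ : G →* DihedralGroup p) (hδ : Function.Surjective δ) :
    ∃ (ϱ : DihedralGroup p →* Equiv.Perm (ZMod p)) (σ : ℤ[T;T⁻¹] →+* ℤ[T;T⁻¹]) (D f : ℤ[T;T⁻¹]),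
      (∀ n, ϱ (.r 1) n = n - 1 ∧ ϱ (.sr 0) n = -n) ∧ σ (T 1) = -T 1 ∧
      Ideal.span {D} =
        Ideal.span (Set.range fun j => (jac (fun g => T (φ (π g)).toAdd) r j).det) ∧
      (∃ j, den (φ.comp π) (ϱ.comp (δ.comp π)) j ≠ 0) ∧
      ∀ j, den (φ.comp π) (ϱ.comp (δ.comp π)) j ≠ 0 → ∃ (s : ℕ) (k : ℤ),
        (1 - T 1) * num (φ.comp π) (ϱ.comp (δ.comp π)) r j =
          (-1) ^ s * T k * (D * f * σ f) * den (φ.comp π) (ϱ.comp (δ.comp π)) j := by
  -- the presented group
  obtain ⟨ι, hι⟩ : ∃ ι : PresentedGroup (Set.range r) ≃* G,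
      ∀ g, ι (PresentedGroup.mk (Set.range r) g) = π g := by
    refine ⟨(QuotientGroup.quotientMulEquivOfEq hπ.2.symm).trans
      (QuotientGroup.quotientKerEquivOfSurjective π hπ.1), fun g => ?_⟩
    rfl
  obtain ⟨κ⟩ : Nonempty (TwoBridgeGroup a b ≃* G) :=
    ⟨(QuotientGroup.quotientMulEquivOfEq hω.2.symm).trans
      (QuotientGroup.quotientKerEquivOfSurjective ω hω.1)⟩
  have hφ' : Function.Surjective (φ.comp ι.toMonoidHom) := hφ.comp ι.surjective
  have hδ' : Function.Surjective (δ.comp ι.toMonoidHom) := hδ.comp ι.surjective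
  have hrep : ∀ g, twistedRep (φ.comp ι.toMonoidHom) (δ.comp ι.toMonoidHom)
      (PresentedGroup.mk (Set.range r) g) = Phi (φ.comp π) ((act p).comp (δ.comp π)) g := by
    intro g
    refine Matrix.ext fun i j => ?_
    show (if i = dihAct (δ (ι (PresentedGroup.mk (Set.range r) g))) j then
      (T (φ (ι (PresentedGroup.mk (Set.range r) g))).toAdd : ℤ[T;T⁻¹]) else 0) =
      if i = dihAct (δ (π g)) j then (T (φ (π g)).toAdd : ℤ[T;T⁻¹]) else 0
    rw [hι]
  have hden : ∀ j, wadaDen r (twistedRep (φ.comp ι.toMonoidHom) (δ.comp ι.toMonoidHom)) j =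
      den (φ.comp π) ((act p).comp (δ.comp π)) j := by
    intro j
    show (twistedRep (φ.comp ι.toMonoidHom) (δ.comp ι.toMonoidHom)
      (PresentedGroup.mk (Set.range r) (FreeGroup.of j)) - 1).det = _
    rw [hrep]
    rfl
  have hnum : ∀ j, wadaNum r (twistedRep (φ.comp ι.toMonoidHom) (δ.comp ι.toMonoidHom)) j =
      num (φ.comp π) ((act p).comp (δ.comp π)) r j := by
    intro j
    unfold wadaNum num
    refine congrArg Matrix.det (Matrix.ext fun x y => ?_)
    exact congrFun (congrFun (fox_eq ((twistedRep (φ.comp ι.toMonoidHom)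
      (δ.comp ι.toMonoidHom)).comp (PresentedGroup.mk (Set.range r)))
      (Phi (φ.comp π) ((act p).comp (δ.comp π))) hrep (j.succAbove y.1) (r x.1)) x.2) y.2
  have hal : alexanderIdeal r (φ.comp ι.toMonoidHom) =
      Ideal.span (Set.range fun j => (jac (fun g => T (φ (π g)).toAdd) r j).det) := by
    unfold alexanderIdeal
    congr 1
    congr 1
    funext j
    refine congrArg Matrix.det (Matrix.ext fun x y => ?_)
    exact fox_eq ((tHom (φ.comp ι.toMonoidHom)).comp (PresentedGroup.mk (Set.range r)))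
      (fun g => (T (φ (π g)).toAdd : ℤ[T;T⁻¹])) (fun g => by
      show (T (φ (ι (PresentedGroup.mk (Set.range r) g))).toAdd : ℤ[T;T⁻¹]) =
        T (φ (π g)).toAdd
      rw [hι]) (j.succAbove y) (r x)
  obtain ⟨D, f, h1, h2⟩ := main a b ha hb hab p hp m r (ι.trans κ.symm) (φ.comp ι.toMonoidHom) hφ'
    (δ.comp ι.toMonoidHom) hδ'
  obtain ⟨j₁, hj₁⟩ := exists_wadaDen_ne r (φ.comp ι.toMonoidHom) hφ' (δ.comp ι.toMonoidHom)
  refine ⟨act p, negT, D, f, fun n => ⟨rfl, ?_⟩, negT_T_one, h1.trans hal,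
    ⟨j₁, by rw [← hden]; exact hj₁⟩, fun j _ => ?_⟩
  · show (0 : ZMod p) - n = -n
    rw [zero_sub]
  · obtain ⟨u, hu⟩ := h2 j
    obtain ⟨s, k, hsk⟩ := units_laurent u
    rw [← hnum, ← hden, hu, hsk]
    rcases Int.units_eq_one_or s with rfl | rfl
    · refine ⟨0, k, ?_⟩
      simp
    · refine ⟨1, k, ?_⟩
      simp

end TBD
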